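import Pool.Agent.Helper165.DB.Glue

set_option autoImplicit false

namespace Pool.Agent.Helper165.DB

namespace GlueData

variable (d : GlueData)

lemma mkHom_aux {S K : Type} [CommRing S] [Algebra ℂ S] [Field K] [Algebra ℂ K] (φ : S → K)
    (hadd : ∀ s s', φ (s + s') = φ s + φ s')
    (halg : ∀ c : ℂ, φ (algebraMap ℂ S c) = algebraMap ℂ K c * φ 1)
    (hmul : ∀ s s', φ s * φ s' = φ 1 * φ (s * s')) (h1 : φ 1 ≠ 0) :
    ∃ y : S →ₐ[ℂ] K, ∀ s, y s * φ 1 = φ s := by
  have h0 : φ 0 = 0 := by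
    have := hadd 0 0
    simpa using this
  refine ⟨{ toFun := fun s => φ s / φ 1, map_one' := by field_simp, map_mul' := ?_,
            map_zero' := by simp [h0], map_add' := ?_, commutes' := ?_ }, ?_⟩
  · intro s s'
    field_simp
    rw [mul_comm]
    exact (hmul s s').symm
  · intro s s'
    simp only [hadd]
    ring
  · intro c
    simp only [halg]
    field_simp
  · intro s
    change φ s / φ 1 * φ 1 = φ s
    field_simp

lemma case1_aux (K : Type) [Field K] [Algebra ℂ K] (x : d.R →ₐ[ℂ] K) (G : d.S₁)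
    (hG : ∀ i, d.ρ₁ i G = 0) (g : d.R) (hg : (g : d.S₁ × d.S₂) = (G, 0)) (hx : x g ≠ 0) :
    ∃ (i : Idx) (y : d.ring i →ₐ[ℂ] K), y.comp (d.aug i) = x ∧
      ∀ (j : Idx) (z : d.ring j →ₐ[ℂ] K), z.comp (d.aug j) = x →
        ∃ h : Idx.le i j, y.comp (d.res h) = z := by
  have hmem : ∀ s : d.S₁, ((G * s, 0) : d.S₁ × d.S₂) ∈ d.R := by
    intro s i
    simp [hG i]
  obtain ⟨y, hy⟩ := mkHom_aux (S := d.S₁) (K := K) (fun s => x ⟨(G * s, 0), hmem s⟩)
    (by
      intro s s'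
      rw [← map_add]
      congr 1
      apply Subtype.ext
      simp [mul_add])
    (by
      intro c
      rw [← Algebra.smul_def, ← map_smul]
      congr 1
      apply Subtype.ext
      simp [Algebra.smul_def, mul_comm])
    (by
      intro s s'
      rw [← map_mul, ← map_mul]
      congr 1
      apply Subtype.ext
      simp only [MulMemClass.mk_mul_mk, Prod.mk_mul_mk, mul_zero]
      congr 1
      ring)
    (by
      have : (⟨(G * 1, 0), hmem 1⟩ : d.R) = g := by
        apply Subtype.ext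
        simp [hg]
      simp only [this]
      exact hx)
  have hφ1 : (⟨(G * 1, 0), hmem 1⟩ : d.R) = g := by
    apply Subtype.ext
    simp [hg]
  simp only [hφ1] at hy
  refine ⟨Idx.Y₁, y, ?_, ?_⟩
  · apply AlgHom.ext
    intro r
    change y (r : d.S₁ × d.S₂).1 = x r
    apply mul_right_cancel₀ hx
    rw [hy, ← map_mul]
    congr 1
    apply Subtype.ext
    simp [hg, mul_comm, Prod.ext_iff]
  · intro j z hz
    have hz' : ∀ r, z (d.aug j r) = x r := fun r => DFunLike.congr_fun hz r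
    cases j with
    | o =>
      exfalso
      apply hx
      rw [← hz' g]
      have : d.aug Idx.o g = 0 := by
        change d.ε₁ (g : d.S₁ × d.S₂).1 = 0
        rw [hg, ← d.hε₁ 0, hG 0, map_zero]
      rw [this]
      exact map_zero _
    | L k =>
      exfalso
      apply hx
      rw [← hz' g]
      have : d.aug (Idx.L k) g = 0 := by
        change d.ρ₁ k (g : d.S₁ × d.S₂).1 = 0
        rw [hg, hG k]
      rw [this]
      exact map_zero _
    | Y₂ =>
      exfalso
      apply hx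
      rw [← hz' g]
      have : d.aug Idx.Y₂ g = 0 := by
        change (g : d.S₁ × d.S₂).2 = 0
        rw [hg]
      rw [this]
      exact map_zero _
    | Y₁ =>
      refine ⟨trivial, ?_⟩
      let z' : d.S₁ →ₐ[ℂ] K := z
      have hz2 : ∀ r : d.R, z' (r : d.S₁ × d.S₂).1 = x r := hz'
      change y = z'
      apply AlgHom.ext
      intro s
      apply mul_right_cancel₀ hx
      rw [hy, ← hz2, ← hz2, ← map_mul]
      congr 1
      simp [hg, mul_comm]

lemma case2_aux (K : Type) [Field K] [Algebra ℂ K] (x : d.R →ₐ[ℂ] K) (G : d.S₂)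
    (hG : ∀ i, d.ρ₂ i G = 0) (g : d.R) (hg : (g : d.S₁ × d.S₂) = (0, G)) (hx : x g ≠ 0) :
    ∃ (i : Idx) (y : d.ring i →ₐ[ℂ] K), y.comp (d.aug i) = x ∧
      ∀ (j : Idx) (z : d.ring j →ₐ[ℂ] K), z.comp (d.aug j) = x →
        ∃ h : Idx.le i j, y.comp (d.res h) = z := by
  have hmem : ∀ s : d.S₂, ((0, G * s) : d.S₁ × d.S₂) ∈ d.R := by
    intro s i
    simp [hG i]
  obtain ⟨y, hy⟩ := mkHom_aux (S := d.S₂) (K := K) (fun s => x ⟨(0, G * s), hmem s⟩)
    (by
      intro s s'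
      rw [← map_add]
      congr 1
      apply Subtype.ext
      simp [mul_add])
    (by
      intro c
      rw [← Algebra.smul_def, ← map_smul]
      congr 1
      apply Subtype.ext
      simp [Algebra.smul_def, mul_comm])
    (by
      intro s s'
      rw [← map_mul, ← map_mul]
      congr 1
      apply Subtype.ext
      simp only [MulMemClass.mk_mul_mk, Prod.mk_mul_mk, mul_zero]
      congr 1
      ring)
    (by
      have : (⟨(0, G * 1), hmem 1⟩ : d.R) = g := by
        apply Subtype.ext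
        simp [hg]
      simp only [this]
      exact hx)
  have hφ1 : (⟨(0, G * 1), hmem 1⟩ : d.R) = g := by
    apply Subtype.ext
    simp [hg]
  simp only [hφ1] at hy
  refine ⟨Idx.Y₂, y, ?_, ?_⟩
  · apply AlgHom.ext
    intro r
    change y (r : d.S₁ × d.S₂).2 = x r
    apply mul_right_cancel₀ hx
    rw [hy, ← map_mul]
    congr 1
    apply Subtype.ext
    simp [hg, mul_comm, Prod.ext_iff]
  · intro j z hz
    have hz' : ∀ r, z (d.aug j r) = x r := fun r => DFunLike.congr_fun hz r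
    cases j with
    | o =>
      exfalso
      apply hx
      rw [← hz' g]
      have : d.aug Idx.o g = 0 := by
        change d.ε₁ (g : d.S₁ × d.S₂).1 = 0
        rw [hg, map_zero]
      rw [this]
      exact map_zero _
    | L k =>
      exfalso
      apply hx
      rw [← hz' g]
      have : d.aug (Idx.L k) g = 0 := by
        change d.ρ₁ k (g : d.S₁ × d.S₂).1 = 0
        rw [hg, map_zero]
      rw [this]
      exact map_zero _
    | Y₁ =>
      exfalso
      apply hx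
      rw [← hz' g]
      have : d.aug Idx.Y₁ g = 0 := by
        change (g : d.S₁ × d.S₂).1 = 0
        rw [hg]
      rw [this]
      exact map_zero _
    | Y₂ =>
      refine ⟨trivial, ?_⟩
      let z' : d.S₂ →ₐ[ℂ] K := z
      have hz2 : ∀ r : d.R, z' (r : d.S₁ × d.S₂).2 = x r := hz'
      change y = z'
      apply AlgHom.ext
      intro s
      apply mul_right_cancel₀ hx
      rw [hy, ← hz2, ← hz2, ← map_mul]
      congr 1
      simp [hg, mul_comm]

/-- Elements of `R` with given entry `T ^ 4 * b` at `i` and zero elsewhere. -/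
lemma exE_aux (i : Fin 4) (b : d.A) : ∃ r : d.R, d.ρ₁ i (r : d.S₁ × d.S₂).1 = d.T ^ 4 * b ∧
    ∀ k, k ≠ i → d.ρ₁ k (r : d.S₁ × d.S₂).1 = 0 := by
  obtain ⟨G₁, h1, h1'⟩ := d.cond₁ i b
  obtain ⟨G₂, h2, h2'⟩ := d.cond₂ i b
  refine ⟨⟨(G₁, G₂), ?_⟩, h1, h1'⟩
  intro k
  by_cases hk : k = i
  · subst hk
    simp [h1, h2]
  · simp [h1' k hk, h2' k hk]

lemma hR_aux (r : d.R) (k : Fin 4) :
    d.ρ₁ k (r : d.S₁ × d.S₂).1 = d.ρ₂ k (r : d.S₁ × d.S₂).2 := r.2 k

lemma case3a_aux (K : Type) [Field K] [Algebra ℂ K] (x : d.R →ₐ[ℂ] K)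
    (xeq : ∀ r r' : d.R, (∀ k, d.ρ₁ k (r : d.S₁ × d.S₂).1 = d.ρ₁ k (r' : d.S₁ × d.S₂).1) →
      x r = x r')
    (i : Fin 4) (b : d.A) (ru : d.R) (hru : d.ρ₁ i (ru : d.S₁ × d.S₂).1 = d.T ^ 4 * b)
    (hru' : ∀ k, k ≠ i → d.ρ₁ k (ru : d.S₁ × d.S₂).1 = 0) (hx : x ru ≠ 0) :
    ∃ (i : Idx) (y : d.ring i →ₐ[ℂ] K), y.comp (d.aug i) = x ∧
      ∀ (j : Idx) (z : d.ring j →ₐ[ℂ] K), z.comp (d.aug j) = x →
        ∃ h : Idx.le i j, y.comp (d.res h) = z := by
  choose rr hrr hrr' using d.exE_aux i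
  have hφ1 : x (rr (b * 1)) = x ru := by
    apply xeq
    intro k
    by_cases hk : k = i
    · subst hk
      rw [hrr, hru, mul_one]
    · rw [hrr' _ k hk, hru' k hk]
  obtain ⟨y, hy⟩ := mkHom_aux (S := d.A) (K := K) (fun a => x (rr (b * a)))
    (by
      intro s s'
      rw [← map_add]
      apply xeq
      intro k
      by_cases hk : k = i
      · subst hk
        simp [hrr, mul_add]
      · simp [hrr' _ k hk])
    (by
      intro c
      rw [← Algebra.smul_def, ← map_smul]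
      apply xeq
      intro k
      by_cases hk : k = i
      · subst hk
        have hs : ((c • rr (b * 1) : d.R) : d.S₁ × d.S₂).1
            = c • (rr (b * 1) : d.S₁ × d.S₂).1 := rfl
        rw [hs, map_smul, hrr, hrr, Algebra.smul_def]
        ring
      · simp [hrr' _ k hk])
    (by
      intro s s'
      rw [← map_mul, ← map_mul]
      apply xeq
      intro k
      by_cases hk : k = i
      · subst hk
        simp only [MulMemClass.coe_mul, Prod.fst_mul, map_mul, hrr]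
        ring
      · simp [hrr' _ k hk])
    (by
      rw [hφ1]
      exact hx)
  have hy' : ∀ s, y s * x ru = x (rr (b * s)) := by
    intro s
    rw [← hφ1]
    exact hy s
  refine ⟨Idx.L i, y, ?_, ?_⟩
  · apply AlgHom.ext
    intro r
    change y (d.ρ₁ i (r : d.S₁ × d.S₂).1) = x r
    apply mul_right_cancel₀ hx
    rw [hy', ← map_mul]
    apply xeq
    intro k
    by_cases hk : k = i
    · subst hk
      simp only [MulMemClass.coe_mul, Prod.fst_mul, map_mul, hrr, hru]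
      ring
    · simp [hrr' _ k hk, hru' k hk]
  · intro j z hz
    have hz' : ∀ r, z (d.aug j r) = x r := fun r => DFunLike.congr_fun hz r
    cases j with
    | o =>
      exfalso
      apply hx
      rw [← hz' ru]
      have : d.aug Idx.o ru = 0 := by
        change d.ε₁ (ru : d.S₁ × d.S₂).1 = 0
        rw [← d.hε₁ i, hru, map_mul, map_pow, d.evT]
        simp
      rw [this]
      exact map_zero _
    | L k =>
      by_cases hk : k = i
      · subst hk
        refine ⟨rfl, ?_⟩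
        let z' : d.A →ₐ[ℂ] K := z
        have hz2 : ∀ r : d.R, z' (d.ρ₁ k (r : d.S₁ × d.S₂).1) = x r := hz'
        change y = z'
        apply AlgHom.ext
        intro s
        apply mul_right_cancel₀ hx
        rw [hy', ← hz2, ← hz2, ← map_mul]
        congr 1
        rw [hrr, hru]
        ring
      · exfalso
        apply hx
        rw [← hz' ru]
        have : d.aug (Idx.L k) ru = 0 := by
          change d.ρ₁ k (ru : d.S₁ × d.S₂).1 = 0
          exact hru' k hk
        rw [this]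
        exact map_zero _
    | Y₁ =>
      refine ⟨trivial, ?_⟩
      let z' : d.S₁ →ₐ[ℂ] K := z
      have hz2 : ∀ r : d.R, z' (r : d.S₁ × d.S₂).1 = x r := hz'
      change y.comp (d.ρ₁ i) = z'
      apply AlgHom.ext
      intro s
      apply mul_right_cancel₀ hx
      change y (d.ρ₁ i s) * x ru = _
      rw [hy']
      have hm : ((s * (ru : d.S₁ × d.S₂).1, (rr (b * d.ρ₁ i s) : d.S₁ × d.S₂).2) :
          d.S₁ × d.S₂) ∈ d.R := by
        intro k
        change d.ρ₁ k (s * (ru : d.S₁ × d.S₂).1) = d.ρ₂ k (rr (b * d.ρ₁ i s) : d.S₁ × d.S₂).2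
        rw [← d.hR_aux]
        by_cases hk : k = i
        · subst hk
          rw [hrr, map_mul, hru]
          ring
        · rw [hrr' _ k hk, map_mul, hru' k hk, mul_zero]
      have h1 : x (rr (b * d.ρ₁ i s)) = x ⟨_, hm⟩ := by
        apply xeq
        intro k
        change d.ρ₁ k (rr (b * d.ρ₁ i s) : d.S₁ × d.S₂).1 = d.ρ₁ k (s * (ru : d.S₁ × d.S₂).1)
        by_cases hk : k = i
        · subst hk
          rw [hrr, map_mul, hru]
          ring
        · rw [hrr' _ k hk, map_mul, hru' k hk, mul_zero]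
      rw [h1, ← hz2, ← hz2 ru, ← map_mul]
    | Y₂ =>
      refine ⟨trivial, ?_⟩
      let z' : d.S₂ →ₐ[ℂ] K := z
      have hz2 : ∀ r : d.R, z' (r : d.S₁ × d.S₂).2 = x r := hz'
      change y.comp (d.ρ₂ i) = z'
      apply AlgHom.ext
      intro s
      apply mul_right_cancel₀ hx
      change y (d.ρ₂ i s) * x ru = _
      rw [hy']
      have hm : (((rr (b * d.ρ₂ i s) : d.S₁ × d.S₂).1, s * (ru : d.S₁ × d.S₂).2) :
          d.S₁ × d.S₂) ∈ d.R := by
        intro k
        change d.ρ₁ k (rr (b * d.ρ₂ i s) : d.S₁ × d.S₂).1 = d.ρ₂ k (s * (ru : d.S₁ × d.S₂).2)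
        rw [map_mul, ← d.hR_aux]
        by_cases hk : k = i
        · subst hk
          rw [hrr, hru]
          ring
        · rw [hrr' _ k hk, hru' k hk, mul_zero]
      have h1 : x (rr (b * d.ρ₂ i s)) = x ⟨_, hm⟩ := by
        apply xeq
        intro k
        rfl
      rw [h1, ← hz2, ← hz2 ru, ← map_mul]

lemma case3b_aux (K : Type) [Field K] [Algebra ℂ K] (x : d.R →ₐ[ℂ] K)
    (xeq : ∀ r r' : d.R, (∀ k, d.ρ₁ k (r : d.S₁ × d.S₂).1 = d.ρ₁ k (r' : d.S₁ × d.S₂).1) →
      x r = x r')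
    (hx : ∀ (i : Fin 4) (b : d.A) (r : d.R), d.ρ₁ i (r : d.S₁ × d.S₂).1 = d.T ^ 4 * b →
      (∀ k, k ≠ i → d.ρ₁ k (r : d.S₁ × d.S₂).1 = 0) → x r = 0) :
    ∃ (i : Idx) (y : d.ring i →ₐ[ℂ] K), y.comp (d.aug i) = x ∧
      ∀ (j : Idx) (z : d.ring j →ₐ[ℂ] K), z.comp (d.aug j) = x →
        ∃ h : Idx.le i j, y.comp (d.res h) = z := by
  choose rr hrr hrr' using d.exE_aux
  have hxrr : ∀ i b, x (rr i b) = 0 := fun i b => hx i b _ (hrr i b) (hrr' i b)
  -- elements with prescribed entries in `T ^ 4 A`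
  have hex : ∀ b : Fin 4 → d.A, ∃ r : d.R, (∀ k, d.ρ₁ k (r : d.S₁ × d.S₂).1 = d.T ^ 4 * b k) ∧
      x r = 0 := by
    intro b
    refine ⟨∑ i, rr i (b i), ?_, ?_⟩
    · intro k
      have : d.ρ₁ k ((∑ i, rr i (b i) : d.R) : d.S₁ × d.S₂).1
          = ∑ i, d.ρ₁ k (rr i (b i) : d.S₁ × d.S₂).1 := by
        rw [AddSubmonoidClass.coe_finsetSum, Prod.fst_sum, map_sum]
      rw [this, Finset.sum_eq_single k]
      · exact hrr k (b k)
      · intro i _ hik
        exact hrr' i (b i) k (Ne.symm hik)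
      · intro h
        exact absurd (Finset.mem_univ k) h
    · rw [map_sum]
      exact Finset.sum_eq_zero fun i _ => hxrr i (b i)
  have h4 : ∀ (r : d.R) (b : Fin 4 → d.A),
      (∀ k, d.ρ₁ k (r : d.S₁ × d.S₂).1 = d.T ^ 4 * b k) → x r = 0 := by
    intro r b hb
    obtain ⟨r', hr', hr0⟩ := hex b
    rw [← hr0]
    apply xeq
    intro k
    rw [hb, hr']
  have hT : ∀ a : d.A, d.ev a = 0 → ∃ b, a = d.T * b := by
    intro a ha
    obtain ⟨b, hb⟩ := d.hev a
    refine ⟨b, ?_⟩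
    rw [ha, map_zero, zero_add] at hb
    exact hb
  have hzero : ∀ r : d.R, d.ε₁ (r : d.S₁ × d.S₂).1 = 0 → x r = 0 := by
    intro r hr
    have : ∀ k, ∃ b, d.ρ₁ k (r : d.S₁ × d.S₂).1 = d.T * b := by
      intro k
      apply hT
      rw [d.hε₁, hr]
    choose b hb using this
    have h := h4 (r ^ 4) (fun k => b k ^ 4) (by
      intro k
      simp only [SubmonoidClass.coe_pow, Prod.pow_fst, map_pow, hb]
      ring)
    rw [map_pow] at h
    exact pow_eq_zero_iff (by norm_num) |>.1 h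
  refine ⟨Idx.o, (Algebra.ofId ℂ K : ℂ →ₐ[ℂ] K), ?_, ?_⟩
  · apply AlgHom.ext
    intro r
    change algebraMap ℂ K (d.ε₁ (r : d.S₁ × d.S₂).1) = x r
    have h := hzero (r - algebraMap ℂ d.R (d.ε₁ (r : d.S₁ × d.S₂).1)) (by
      have : ((r - algebraMap ℂ d.R (d.ε₁ (r : d.S₁ × d.S₂).1) : d.R) : d.S₁ × d.S₂).1
          = (r : d.S₁ × d.S₂).1 - algebraMap ℂ d.S₁ (d.ε₁ (r : d.S₁ × d.S₂).1) := rfl
      rw [this, map_sub, AlgHom.commutes]
      simp)
    rw [map_sub, AlgHom.commutes, sub_eq_zero] at h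
    exact h.symm
  · intro j z hz
    have hz' : ∀ r, z (d.aug j r) = x r := fun r => DFunLike.congr_fun hz r
    refine ⟨trivial, ?_⟩
    cases j with
    | o =>
      let z' : ℂ →ₐ[ℂ] K := z
      change (Algebra.ofId ℂ K) = z'
      exact Subsingleton.elim _ _
    | L k =>
      let z' : d.A →ₐ[ℂ] K := z
      have hz2 : ∀ r : d.R, z' (d.ρ₁ k (r : d.S₁ × d.S₂).1) = x r := hz'
      change (Algebra.ofId ℂ K).comp d.ev = z'
      apply AlgHom.ext
      intro a
      change algebraMap ℂ K (d.ev a) = z' a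
      have hT0 : z' d.T = 0 := by
        have h := hxrr k 1
        rw [← hz2, hrr, mul_one, map_pow] at h
        exact pow_eq_zero_iff (by norm_num) |>.1 h
      obtain ⟨b, hb⟩ := d.hev a
      conv_rhs => rw [hb]
      rw [map_add, map_mul, hT0, zero_mul, add_zero, AlgHom.commutes]
    | Y₁ =>
      let z' : d.S₁ →ₐ[ℂ] K := z
      have hz2 : ∀ r : d.R, z' (r : d.S₁ × d.S₂).1 = x r := hz'
      change (Algebra.ofId ℂ K).comp d.ε₁ = z'
      apply AlgHom.ext
      intro s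
      change algebraMap ℂ K (d.ε₁ s) = z' s
      have : ∀ k, ∃ b, d.ρ₁ k (s - algebraMap ℂ d.S₁ (d.ε₁ s)) = d.T * b := by
        intro k
        apply hT
        rw [d.hε₁, map_sub, AlgHom.commutes]
        simp
      choose b hb using this
      obtain ⟨r', hr', _⟩ := hex (fun k => b k ^ 4)
      have hm : (((s - algebraMap ℂ d.S₁ (d.ε₁ s)) ^ 4, (r' : d.S₁ × d.S₂).2) :
          d.S₁ × d.S₂) ∈ d.R := by
        intro k
        change d.ρ₁ k ((s - algebraMap ℂ d.S₁ (d.ε₁ s)) ^ 4) = d.ρ₂ k (r' : d.S₁ × d.S₂).2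
        rw [← d.hR_aux, hr', map_pow, hb]
        ring
      have h := h4 ⟨_, hm⟩ (fun k => b k ^ 4) (by
        intro k
        change d.ρ₁ k ((s - algebraMap ℂ d.S₁ (d.ε₁ s)) ^ 4) = _
        rw [map_pow, hb]
        ring)
      rw [← hz2] at h
      change z' ((s - algebraMap ℂ d.S₁ (d.ε₁ s)) ^ 4) = 0 at h
      rw [map_pow] at h
      have h0 := pow_eq_zero_iff (by norm_num) |>.1 h
      rw [map_sub, AlgHom.commutes, sub_eq_zero] at h0
      exact h0.symm
    | Y₂ =>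
      let z' : d.S₂ →ₐ[ℂ] K := z
      have hz2 : ∀ r : d.R, z' (r : d.S₁ × d.S₂).2 = x r := hz'
      change (Algebra.ofId ℂ K).comp d.ε₂ = z'
      apply AlgHom.ext
      intro s
      change algebraMap ℂ K (d.ε₂ s) = z' s
      have : ∀ k, ∃ b, d.ρ₂ k (s - algebraMap ℂ d.S₂ (d.ε₂ s)) = d.T * b := by
        intro k
        apply hT
        rw [d.hε₂, map_sub, AlgHom.commutes]
        simp
      choose b hb using this
      obtain ⟨r', hr', _⟩ := hex (fun k => b k ^ 4)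
      have hm : (((r' : d.S₁ × d.S₂).1, (s - algebraMap ℂ d.S₂ (d.ε₂ s)) ^ 4) :
          d.S₁ × d.S₂) ∈ d.R := by
        intro k
        change d.ρ₁ k (r' : d.S₁ × d.S₂).1 = d.ρ₂ k ((s - algebraMap ℂ d.S₂ (d.ε₂ s)) ^ 4)
        rw [hr', map_pow, hb]
        ring
      have h := h4 ⟨_, hm⟩ (fun k => b k ^ 4) (by
        intro k
        change d.ρ₁ k (r' : d.S₁ × d.S₂).1 = _
        rw [hr'])
      rw [← hz2] at h
      change z' ((s - algebraMap ℂ d.S₂ (d.ε₂ s)) ^ 4) = 0 at h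
      rw [map_pow] at h
      have h0 := pow_eq_zero_iff (by norm_num) |>.1 h
      rw [map_sub, AlgHom.commutes, sub_eq_zero] at h0
      exact h0.symm

theorem descent (K : Type) [Field K] [Algebra ℂ K] (x : d.R →ₐ[ℂ] K) :
    ∃ (i : Idx) (y : d.ring i →ₐ[ℂ] K), y.comp (d.aug i) = x ∧
      ∀ (j : Idx) (z : d.ring j →ₐ[ℂ] K), z.comp (d.aug j) = x →
        ∃ h : Idx.le i j, y.comp (d.res h) = z := by
  have mem1 : ∀ G : d.S₁, (∀ i, d.ρ₁ i G = 0) → ((G, 0) : d.S₁ × d.S₂) ∈ d.R := by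
    intro G hG i
    simp [hG i]
  have mem2 : ∀ G : d.S₂, (∀ i, d.ρ₂ i G = 0) → ((0, G) : d.S₁ × d.S₂) ∈ d.R := by
    intro G hG i
    simp [hG i]
  by_cases h1 : ∃ (G : d.S₁) (hG : ∀ i, d.ρ₁ i G = 0), x ⟨(G, 0), mem1 G hG⟩ ≠ 0
  · obtain ⟨G, hG, hx⟩ := h1
    exact d.case1_aux K x G hG _ rfl hx
  by_cases h2 : ∃ (G : d.S₂) (hG : ∀ i, d.ρ₂ i G = 0), x ⟨(0, G), mem2 G hG⟩ ≠ 0
  · obtain ⟨G, hG, hx⟩ := h2
    exact d.case2_aux K x G hG _ rfl hx
  push Not at h1 h2
  have xeq : ∀ r r' : d.R,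
      (∀ k, d.ρ₁ k (r : d.S₁ × d.S₂).1 = d.ρ₁ k (r' : d.S₁ × d.S₂).1) → x r = x r' := by
    intro r r' h
    have hG1 : ∀ i, d.ρ₁ i ((r : d.S₁ × d.S₂).1 - (r' : d.S₁ × d.S₂).1) = 0 := by
      intro i
      rw [map_sub, h i, sub_self]
    have hG2 : ∀ i, d.ρ₂ i ((r : d.S₁ × d.S₂).2 - (r' : d.S₁ × d.S₂).2) = 0 := by
      intro i
      rw [map_sub, ← d.hR_aux, ← d.hR_aux, h i, sub_self]
    have hdec : r - r' = (⟨(_, 0), mem1 _ hG1⟩ : d.R) + ⟨(0, _), mem2 _ hG2⟩ := by
      apply Subtype.ext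
      simp [Prod.ext_iff]
    rw [← sub_eq_zero, ← map_sub, hdec, map_add, h1 _ hG1, h2 _ hG2, add_zero]
  by_cases h3 : ∃ (i : Fin 4) (b : d.A) (r : d.R), d.ρ₁ i (r : d.S₁ × d.S₂).1 = d.T ^ 4 * b ∧
      (∀ k, k ≠ i → d.ρ₁ k (r : d.S₁ × d.S₂).1 = 0) ∧ x r ≠ 0
  · obtain ⟨i, b, r, hr, hr', hx⟩ := h3
    exact d.case3a_aux K x xeq i b r hr hr' hx
  · push Not at h3
    exact d.case3b_aux K x xeq h3

end GlueData

end Pool.Agent.Helper165.DB

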