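import Pool.Agent.Helper165.DB.Glue

set_option autoImplicit false

namespace Pool.Agent.Helper165.DB

namespace GlueData

variable (d : GlueData)

theorem dim_chain_le {R S : Type} [CommRing R] [CommRing S] [IsDomain S] (f : R →+* S)
    (hf : f.Finite) (hS : ringKrullDim S ≤ 2) (l : LTSeries (PrimeSpectrum R))
    (hl : RingHom.ker f ≤ (RelSeries.head l).asIdeal) : (l.length : WithBot ℕ∞) ≤ 2 := by
  letI : Algebra R S := f.toAlgebra
  haveI : Algebra.IsIntegral R S := ⟨fun x => hf.to_isIntegral x⟩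
  have hP := (RelSeries.head l).2
  obtain ⟨Q, hQ, hQc⟩ := Ideal.exists_ideal_over_prime_of_isIntegral_of_isDomain (R := R) (S := S)
    (RelSeries.head l).asIdeal hl
  haveI : Q.LiesOver (RelSeries.head l).asIdeal := ⟨hQc.symm⟩
  obtain ⟨L, hL, -, -⟩ := Ideal.exists_ltSeries_of_hasGoingUp (S := S) l Q
  rw [← hL]
  exact (Order.LTSeries.length_le_krullDim L).trans hS

theorem dim_R [IsDomain d.S₁] [IsDomain d.S₂] [IsDomain d.A]
    (h₁ : ringKrullDim d.S₁ ≤ 2) (h₂ : ringKrullDim d.S₂ ≤ 2)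
    (hn₁ : ∃ G : d.S₁, G ≠ 0 ∧ ∀ i, d.ρ₁ i G = 0) (hT : d.T ≠ 0)
    (aug_finite : ∀ i : Idx, (d.aug i).toRingHom.Finite) : ringKrullDim d.R = 2 := by
  apply le_antisymm
  · unfold ringKrullDim Order.krullDim
    apply iSup_le
    intro l
    have hf1 : (d.p₁.toRingHom).Finite := aug_finite Idx.Y₁
    have hf2 : (d.p₂.toRingHom).Finite := aug_finite Idx.Y₂
    have hinf : RingHom.ker d.p₁.toRingHom ⊓ RingHom.ker d.p₂.toRingHom ≤
        (RelSeries.head l).asIdeal := by
      rintro x ⟨hx1, hx2⟩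
      have hx1' : x.1.1 = 0 := hx1
      have hx2' : x.1.2 = 0 := hx2
      have : x = 0 := Subtype.ext (Prod.ext hx1' hx2')
      rw [this]
      exact Ideal.zero_mem _
    rcases ((RelSeries.head l).2.inf_le).1 hinf with h | h
    · exact dim_chain_le d.p₁.toRingHom hf1 h₁ l h
    · exact dim_chain_le d.p₂.toRingHom hf2 h₂ l h
  · obtain ⟨G, hG0, hG⟩ := hn₁
    obtain ⟨G1, hG1, hG1'⟩ := d.cond₁ 0 1
    obtain ⟨G2, hG2, hG2'⟩ := d.cond₂ 0 1
    let x : d.R := ⟨(G, 0), fun i => by simp [hG i]⟩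
    let y : d.R := ⟨(G1, G2), fun i => by
      by_cases hi : i = 0
      · subst hi
        simp [hG1, hG2]
      · simp [hG1' i hi, hG2' i hi]⟩
    let P0 : PrimeSpectrum d.R := ⟨RingHom.ker d.p₁.toRingHom, RingHom.ker_isPrime _⟩
    let P1 : PrimeSpectrum d.R :=
      ⟨RingHom.ker ((d.ρ₁ 0).comp d.p₁).toRingHom, RingHom.ker_isPrime _⟩
    let P2 : PrimeSpectrum d.R := ⟨RingHom.ker (d.ε₁.comp d.p₁).toRingHom, RingHom.ker_isPrime _⟩
    have h01 : P0 < P1 := by
      rw [lt_iff_le_not_ge]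
      constructor
      · intro z hz
        have hz' : d.p₁ z = 0 := hz
        show (d.ρ₁ 0) (d.p₁ z) = 0
        rw [hz', map_zero]
      · intro hle
        have hx1 : x ∈ P1.asIdeal := hG 0
        have hx0 : x ∈ P0.asIdeal := hle hx1
        exact hG0 hx0
    have h12 : P1 < P2 := by
      rw [lt_iff_le_not_ge]
      constructor
      · intro z hz
        have hz' : (d.ρ₁ 0) (d.p₁ z) = 0 := hz
        show d.ε₁ (d.p₁ z) = 0
        rw [← d.hε₁ 0, hz', map_zero]
      · intro hle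
        have hy2 : y ∈ P2.asIdeal := by
          show d.ε₁ G1 = 0
          rw [← d.hε₁ 0, hG1, map_mul, map_pow, d.evT]
          simp
        have hy1 : y ∈ P1.asIdeal := hle hy2
        have hy1' : (d.ρ₁ 0) G1 = 0 := hy1
        rw [hG1, mul_one] at hy1'
        exact pow_ne_zero 4 hT hy1'
    let L : LTSeries (PrimeSpectrum d.R) := ⟨2, ![P0, P1, P2], by
      intro i
      fin_cases i
      · exact h01
      · exact h12⟩
    exact Order.LTSeries.length_le_krullDim L

end GlueData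

end Pool.Agent.Helper165.DB
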