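import Pool.Agent.Helper165.DB.Ex

set_option autoImplicit false

open Polynomial

namespace Pool.Agent.Helper165.DB

theorem dim_localization_le {R S : Type} [CommRing R] [CommRing S] [Algebra R S]
    (M : Submonoid R) [IsLocalization M S] : ringKrullDim S ≤ ringKrullDim R :=
  Order.krullDim_le_of_strictMono (PrimeSpectrum.comap (algebraMap R S))
    (Monotone.strictMono_of_injective (fun _ _ hab => Ideal.comap_mono hab)
      (PrimeSpectrum.localization_comap_injective S M))

theorem dim_LS (c : ℂ) : ringKrullDim (LS c) ≤ 2 := by
  refine (dim_localization_le (R := MvPolynomial (Fin 2) ℂ) (Submonoid.powers (hpol c))).trans ?_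
  rw [MvPolynomial.ringKrullDim_of_isNoetherianRing, ringKrullDim_eq_zero_of_field]
  simp

end Pool.Agent.Helper165.DB

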