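import Pool.Agent.Helper165.DB.Ex

set_option autoImplicit false

open Polynomial

namespace Pool.Agent.Helper165.DB

theorem P_ne_zero : (1 - X ^ 3 : ℂ[X]) ≠ 0 := by
  intro h
  have := congrArg (Polynomial.eval 0) h
  simp at this

theorem hpol_ne_zero (c : ℂ) : hpol c ≠ 0 := by
  intro h
  have := congrArg (MvPolynomial.eval (fun _ => (0 : ℂ))) h
  simp [hpol] at this

theorem ev0_unit (y : Submonoid.powers (1 - X ^ 3 : ℂ[X])) :
    IsUnit ((Polynomial.aeval (0 : ℂ) : ℂ[X] →ₐ[ℂ] ℂ) y) := by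
  obtain ⟨y, n, rfl⟩ := y
  simp

theorem exists_ev : ∃ ev : LA →ₐ[ℂ] ℂ, ev tt = 0 ∧
    ∀ a : LA, ∃ b : LA, a = algebraMap ℂ LA (ev a) + tt * b := by
  let ev : LA →ₐ[ℂ] ℂ := IsLocalization.liftAlgHom (M := Submonoid.powers (1 - X ^ 3 : ℂ[X]))
    (f := (Polynomial.aeval (0 : ℂ) : ℂ[X] →ₐ[ℂ] ℂ)) ev0_unit
  have hev : ∀ p : ℂ[X], ev (algebraMap ℂ[X] LA p) = Polynomial.eval 0 p := by
    intro p
    have h1 : ev (algebraMap ℂ[X] LA p) = (Polynomial.aeval (0 : ℂ) : ℂ[X] →ₐ[ℂ] ℂ) p :=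
      IsLocalization.lift_eq ev0_unit p
    rw [h1, Polynomial.coe_aeval_eq_eval]
  refine ⟨ev, ?_, ?_⟩
  · rw [tt, hev]; simp
  · intro a
    obtain ⟨⟨p, s⟩, hps⟩ := IsLocalization.surj (Submonoid.powers (1 - X ^ 3 : ℂ[X])) a
    simp only at hps
    have h1 : ev a * Polynomial.eval 0 (s : ℂ[X]) = Polynomial.eval 0 p := by
      rw [← hev, ← hev, ← map_mul, hps]
    have h2 : (X : ℂ[X]) ∣ p - C (ev a) * (s : ℂ[X]) := by
      rw [Polynomial.X_dvd_iff, Polynomial.coeff_zero_eq_eval_zero]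
      simp only [Polynomial.eval_sub, Polynomial.eval_mul, Polynomial.eval_C]
      rw [h1, sub_self]
    obtain ⟨r, hr⟩ := h2
    have hu : IsUnit (algebraMap ℂ[X] LA (s : ℂ[X])) := IsLocalization.map_units LA s
    refine ⟨algebraMap ℂ[X] LA r * (hu.unit⁻¹ : LAˣ), ?_⟩
    apply hu.mul_right_cancel
    have h3 : ((hu.unit⁻¹ : LAˣ) : LA) * algebraMap ℂ[X] LA (s : ℂ[X]) = 1 := by
      have := hu.unit.inv_mul
      simpa using this
    have h4 : algebraMap ℂ LA (ev a) = algebraMap ℂ[X] LA (C (ev a)) := by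
      rw [IsScalarTower.algebraMap_apply ℂ ℂ[X] LA]
      rfl
    rw [hps, add_mul, mul_assoc tt, mul_assoc, h3, mul_one, h4, tt, ← map_mul, ← map_mul, ← map_add]
    congr 1
    rw [← hr]
    ring

theorem isDomain_LA : IsDomain LA :=
  IsLocalization.isDomain_localization (powers_le_nonZeroDivisors_of_noZeroDivisors P_ne_zero)

theorem isDomain_LS (c : ℂ) : IsDomain (LS c) :=
  IsLocalization.isDomain_localization (powers_le_nonZeroDivisors_of_noZeroDivisors (hpol_ne_zero c))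

theorem tt_ne_zero : tt ≠ 0 := by
  intro h
  have hinj : Function.Injective (algebraMap ℂ[X] LA) :=
    IsLocalization.injective LA (powers_le_nonZeroDivisors_of_noZeroDivisors P_ne_zero)
  apply (Polynomial.X_ne_zero : (X : ℂ[X]) ≠ 0)
  apply hinj
  rw [map_zero]
  exact h

end Pool.Agent.Helper165.DB
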