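import Pool.Agent.Helper165.DB.Glue

set_option autoImplicit false

namespace Pool.Agent.Helper165.DB

theorem fin_of_pow4 {R B : Type} [CommRing R] [CommRing B] [Algebra ℂ R] [Algebra ℂ B]
    [Algebra.FiniteType ℂ B] (f : R →ₐ[ℂ] B)
    (h : ∀ b : B, ∃ c : ℂ, ∃ r : R, f r = (b - algebraMap ℂ B c) ^ 4) : f.toRingHom.Finite := by
  have hft : f.toRingHom.FiniteType := by
    have h1 : (f.toRingHom.comp (algebraMap ℂ R)).FiniteType := by
      have e : f.toRingHom.comp (algebraMap ℂ R) = algebraMap ℂ B := f.comp_algebraMap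
      rw [e, RingHom.finiteType_algebraMap]
      infer_instance
    exact RingHom.FiniteType.of_comp_finiteType h1
  have hint : f.toRingHom.IsIntegral := by
    intro b
    obtain ⟨c, r, hr⟩ := h b
    letI : Algebra R B := f.toRingHom.toAlgebra
    have h1 : IsIntegral R ((b - algebraMap ℂ B c) ^ 4) := by
      rw [← hr]
      exact isIntegral_algebraMap (R := R) (A := B) (x := r)
    have h2 : IsIntegral R (b - algebraMap ℂ B c) := IsIntegral.of_pow (by norm_num) h1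
    have h3 : IsIntegral R (algebraMap ℂ B c) := by
      have h4 : IsIntegral R (algebraMap R B (algebraMap ℂ R c)) := isIntegral_algebraMap
      have h5 : algebraMap R B (algebraMap ℂ R c) = algebraMap ℂ B c := f.commutes c
      rwa [h5] at h4
    have h6 := h2.add h3
    rw [sub_add_cancel] at h6
    exact h6
  exact RingHom.IsIntegral.to_finite hint hft

namespace GlueData

variable (d : GlueData)

theorem exists_b₁ (s : d.S₁) : ∃ b : Fin 4 → d.A, ∀ k,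
    d.ρ₁ k (s - algebraMap ℂ d.S₁ (d.ε₁ s)) = d.T * b k := by
  have : ∀ k, ∃ b : d.A, d.ρ₁ k (s - algebraMap ℂ d.S₁ (d.ε₁ s)) = d.T * b := by
    intro k
    obtain ⟨b, hb⟩ := d.hev (d.ρ₁ k s)
    refine ⟨b, ?_⟩
    rw [map_sub, AlgHom.commutes]
    rw [d.hε₁] at hb
    rw [hb, add_sub_cancel_left]
  exact ⟨fun k => (this k).choose, fun k => (this k).choose_spec⟩

theorem exists_b₂ (s : d.S₂) : ∃ b : Fin 4 → d.A, ∀ k,
    d.ρ₂ k (s - algebraMap ℂ d.S₂ (d.ε₂ s)) = d.T * b k := by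
  have : ∀ k, ∃ b : d.A, d.ρ₂ k (s - algebraMap ℂ d.S₂ (d.ε₂ s)) = d.T * b := by
    intro k
    obtain ⟨b, hb⟩ := d.hev (d.ρ₂ k s)
    refine ⟨b, ?_⟩
    rw [map_sub, AlgHom.commutes]
    rw [d.hε₂] at hb
    rw [hb, add_sub_cancel_left]
  exact ⟨fun k => (this k).choose, fun k => (this k).choose_spec⟩

theorem exists_G₁ (b : Fin 4 → d.A) : ∃ G : d.S₁, ∀ k, d.ρ₁ k G = d.T ^ 4 * b k := by
  choose G h1 h2 using fun i => d.cond₁ i (b i)
  refine ⟨∑ i, G i, fun k => ?_⟩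
  rw [map_sum, Finset.sum_eq_single k (fun i _ hi => h2 i k (Ne.symm hi))
    (fun h => absurd (Finset.mem_univ k) h), h1]

theorem exists_G₂ (b : Fin 4 → d.A) : ∃ G : d.S₂, ∀ k, d.ρ₂ k G = d.T ^ 4 * b k := by
  choose G h1 h2 using fun i => d.cond₂ i (b i)
  refine ⟨∑ i, G i, fun k => ?_⟩
  rw [map_sum, Finset.sum_eq_single k (fun i _ hi => h2 i k (Ne.symm hi))
    (fun h => absurd (Finset.mem_univ k) h), h1]

theorem aug_finite [hA : Algebra.FiniteType ℂ d.A] [h₁ : Algebra.FiniteType ℂ d.S₁]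
    [h₂ : Algebra.FiniteType ℂ d.S₂] (i : Idx) : (d.aug i).toRingHom.Finite := by
  cases i with
  | o =>
    refine fin_of_pow4 (R := d.R) (B := ℂ) (d.ε₁.comp d.p₁) fun b => ⟨b, 0, ?_⟩
    rw [map_zero]
    simp
  | L i =>
    refine fin_of_pow4 (R := d.R) (B := d.A) ((d.ρ₁ i).comp d.p₁) fun a => ?_
    obtain ⟨b, hb⟩ := d.hev a
    obtain ⟨G₁, hG₁⟩ := d.exists_G₁ (fun _ => b ^ 4)
    obtain ⟨G₂, hG₂⟩ := d.exists_G₂ (fun _ => b ^ 4)
    refine ⟨d.ev a, ⟨(G₁, G₂), fun k => ?_⟩, ?_⟩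
    · show d.ρ₁ k G₁ = d.ρ₂ k G₂
      rw [hG₁, hG₂]
    · show d.ρ₁ i G₁ = _
      rw [hG₁]
      have : a - algebraMap ℂ d.A (d.ev a) = d.T * b := by
        rw [sub_eq_iff_eq_add', ← hb]
      rw [this, mul_pow]
  | Y₁ =>
    refine fin_of_pow4 (R := d.R) (B := d.S₁) d.p₁ fun s => ?_
    obtain ⟨b, hb⟩ := d.exists_b₁ s
    obtain ⟨G₂, hG₂⟩ := d.exists_G₂ (fun k => b k ^ 4)
    refine ⟨d.ε₁ s, ⟨((s - algebraMap ℂ d.S₁ (d.ε₁ s)) ^ 4, G₂), fun k => ?_⟩, rfl⟩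
    show d.ρ₁ k ((s - algebraMap ℂ d.S₁ (d.ε₁ s)) ^ 4) = d.ρ₂ k G₂
    rw [hG₂, map_pow, hb, mul_pow]
  | Y₂ =>
    refine fin_of_pow4 (R := d.R) (B := d.S₂) d.p₂ fun s => ?_
    obtain ⟨b, hb⟩ := d.exists_b₂ s
    obtain ⟨G₁, hG₁⟩ := d.exists_G₁ (fun k => b k ^ 4)
    refine ⟨d.ε₂ s, ⟨(G₁, (s - algebraMap ℂ d.S₂ (d.ε₂ s)) ^ 4), fun k => ?_⟩, rfl⟩
    show d.ρ₁ k G₁ = d.ρ₂ k ((s - algebraMap ℂ d.S₂ (d.ε₂ s)) ^ 4)
    rw [hG₁, map_pow, hb, mul_pow]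

end GlueData

end Pool.Agent.Helper165.DB
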