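import Pool.Agent.Helper165.DB.Glue

set_option autoImplicit false

namespace Pool.Agent.Helper165.DB

namespace GlueData

variable (d : GlueData)

theorem finiteType_R [h₁ : Algebra.FiniteType ℂ d.S₁] [h₂ : Algebra.FiniteType ℂ d.S₂]
    (aug_finite : ∀ i : Idx, (d.aug i).toRingHom.Finite) : Algebra.FiniteType ℂ d.R := by
  have f1 : (d.p₁).toRingHom.Finite := aug_finite Idx.Y₁
  have f2 : (d.p₂).toRingHom.Finite := aug_finite Idx.Y₂
  -- generators of the two factors
  obtain ⟨s₁, hs₁⟩ := (show @Module.Finite d.R d.S₁ _ _ (d.p₁.toRingHom.toAlgebra).toModule from f1).1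
  obtain ⟨s₂, hs₂⟩ := (show @Module.Finite d.R d.S₂ _ _ (d.p₂.toRingHom.toAlgebra).toModule from f2).1
  have key₁ : ∀ x : d.S₁, ((x, 0) : d.S₁ × d.S₂) ∈
      Submodule.span d.R ((fun y : d.S₁ => ((y, 0) : d.S₁ × d.S₂)) '' (s₁ : Set d.S₁)) := by
    letI : Algebra d.R d.S₁ := d.p₁.toRingHom.toAlgebra
    intro x
    have hx : x ∈ Submodule.span d.R (s₁ : Set d.S₁) := by rw [hs₁]; exact Submodule.mem_top
    induction hx using Submodule.span_induction with
    | mem y hy => exact Submodule.subset_span ⟨y, hy, rfl⟩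
    | zero => exact Submodule.zero_mem _
    | add a b _ _ ha hb =>
      have := Submodule.add_mem _ ha hb
      simpa using this
    | smul r a _ ha =>
      have := Submodule.smul_mem _ r ha
      have h2 : r • ((a, 0) : d.S₁ × d.S₂) = (((d.p₁.toRingHom r) * a, 0) : d.S₁ × d.S₂) := by
        rw [Subalgebra.smul_def]
        ext
        · rfl
        · simp
      rw [h2] at this
      exact this
  have key₂ : ∀ x : d.S₂, ((0, x) : d.S₁ × d.S₂) ∈
      Submodule.span d.R ((fun y : d.S₂ => ((0, y) : d.S₁ × d.S₂)) '' (s₂ : Set d.S₂)) := by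
    letI : Algebra d.R d.S₂ := d.p₂.toRingHom.toAlgebra
    intro x
    have hx : x ∈ Submodule.span d.R (s₂ : Set d.S₂) := by rw [hs₂]; exact Submodule.mem_top
    induction hx using Submodule.span_induction with
    | mem y hy => exact Submodule.subset_span ⟨y, hy, rfl⟩
    | zero => exact Submodule.zero_mem _
    | add a b _ _ ha hb =>
      have := Submodule.add_mem _ ha hb
      simpa using this
    | smul r a _ ha =>
      have := Submodule.smul_mem _ r ha
      have h2 : r • ((0, a) : d.S₁ × d.S₂) = ((0, (d.p₂.toRingHom r) * a) : d.S₁ × d.S₂) := by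
        rw [Subalgebra.smul_def]
        ext
        · simp
        · rfl
      rw [h2] at this
      exact this
  have hprod : (⊤ : Submodule d.R (d.S₁ × d.S₂)).FG := by
    classical
    refine ⟨(s₁.image fun y : d.S₁ => ((y, 0) : d.S₁ × d.S₂)) ∪
      (s₂.image fun y : d.S₂ => ((0, y) : d.S₁ × d.S₂)), ?_⟩
    rw [eq_top_iff]
    rintro ⟨x, y⟩ -
    have e : ((x, y) : d.S₁ × d.S₂) = (x, 0) + (0, y) := by simp
    rw [e]
    refine Submodule.add_mem _ ?_ ?_
    · refine Submodule.span_mono ?_ (key₁ x)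
      simp
    · refine Submodule.span_mono ?_ (key₂ y)
      simp
  refine ⟨?_⟩
  refine fg_of_fg_of_fg ℂ d.R (d.S₁ × d.S₂) ?_ hprod ?_
  · exact (inferInstance : Algebra.FiniteType ℂ (d.S₁ × d.S₂)).1
  · exact Subtype.val_injective

end GlueData

end Pool.Agent.Helper165.DB
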