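import Pool.Agent.Helper165.DB.Ex

set_option autoImplicit false

open Polynomial

namespace Pool.Agent.Helper165.DB

namespace FS

theorem formMap_smulC {A B : Type} [CommRing A] [CommRing B] [Algebra ℂ A]
    [Algebra ℂ B] (f : A →ₐ[ℂ] B) (c : ℂ) (β : Ω[A⁄ℂ]) :
    formMap f (c • β) = c • formMap f β := by
  letI : Algebra A B := f.toRingHom.toAlgebra
  haveI : IsScalarTower ℂ A B := IsScalarTower.of_algebraMap_eq fun c => (f.commutes c).symm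
  change KaehlerDifferential.map ℂ ℂ A B (c • β) = c • KaehlerDifferential.map ℂ ℂ A B β
  exact LinearMap.map_smul_of_tower _ _ _

theorem tt_decomp (f : LA) : ∃ (c : ℂ) (g : LA), f = algebraMap ℂ LA c + tt * g := by
  obtain ⟨n, p, h⟩ := IsLocalization.Away.surj (1 - X ^ 3 : ℂ[X]) f
  have hu : IsUnit (algebraMap ℂ[X] LA (1 - X ^ 3)) :=
    IsLocalization.Away.algebraMap_isUnit (1 - X ^ 3 : ℂ[X])
  obtain ⟨u, hu⟩ := hu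
  have hd : (X : ℂ[X]) ∣ p - C (p.eval 0) * (1 - X ^ 3) ^ n := by
    rw [Polynomial.X_dvd_iff, Polynomial.coeff_zero_eq_eval_zero]
    simp
  obtain ⟨q, hq⟩ := hd
  have hp : p = C (p.eval 0) * (1 - X ^ 3) ^ n + X * q := by rw [← hq]; ring
  refine ⟨p.eval 0, algebraMap ℂ[X] LA q * (↑(u⁻¹) : LA) ^ n, ?_⟩
  have hun : ((u : LA) ^ n) * ((↑(u⁻¹) : LA) ^ n) = 1 := by
    rw [← mul_pow, Units.mul_inv, one_pow]
  have h1 : f * (u : LA) ^ n = algebraMap ℂ LA (p.eval 0) * (u : LA) ^ n + tt * algebraMap ℂ[X] LA q := by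
    rw [hu, ← map_pow]
    rw [map_pow, h]
    conv_lhs => rw [hp]
    rw [map_add, map_mul, map_mul, map_pow]
    rfl
  calc f = f * ((u : LA) ^ n * (↑(u⁻¹) : LA) ^ n) := by rw [hun, mul_one]
    _ = (f * (u : LA) ^ n) * (↑(u⁻¹) : LA) ^ n := by ring
    _ = algebraMap ℂ LA (p.eval 0) * ((u : LA) ^ n * (↑(u⁻¹) : LA) ^ n) +
        tt * (algebraMap ℂ[X] LA q * (↑(u⁻¹) : LA) ^ n) := by rw [h1]; ring
    _ = _ := by rw [hun, mul_one]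

theorem tt_decomp4 (f : LA) : ∃ (c0 c1 c2 c3 : ℂ) (g : LA),
    f = c0 • (1 : LA) + c1 • tt + c2 • tt ^ 2 + c3 • tt ^ 3 + tt ^ 4 * g := by
  obtain ⟨c0, g0, h0⟩ := tt_decomp f
  obtain ⟨c1, g1, h1⟩ := tt_decomp g0
  obtain ⟨c2, g2, h2⟩ := tt_decomp g1
  obtain ⟨c3, g3, h3⟩ := tt_decomp g2
  refine ⟨c0, c1, c2, c3, g3, ?_⟩
  rw [h0, h1, h2, h3]
  simp only [Algebra.smul_def]
  ring

/-- `D tt` spans the forms -/
theorem forms_span (δ : Ω[LA⁄ℂ]) : ∃ f : LA, f • KaehlerDifferential.D ℂ LA tt = δ := by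
  have hpoly : ∀ p : ℂ[X], ∃ f : LA, f • KaehlerDifferential.D ℂ LA tt =
      KaehlerDifferential.D ℂ LA (algebraMap ℂ[X] LA p) := by
    intro p
    refine ⟨algebraMap ℂ[X] LA (derivative p), ?_⟩
    induction p using Polynomial.induction_on' with
    | add p q hp hq =>
      simp only [map_add, add_smul, hp, hq]
    | monomial n a =>
      have e1 : algebraMap ℂ[X] LA (monomial n a) = algebraMap ℂ LA a * tt ^ n := by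
        rw [← C_mul_X_pow_eq_monomial, map_mul, map_pow]
        rfl
      have e2 : algebraMap ℂ[X] LA (derivative (monomial n a)) =
          algebraMap ℂ LA a * ((n : LA) * tt ^ (n - 1)) := by
        rw [Polynomial.derivative_monomial, ← C_mul_X_pow_eq_monomial, C_mul, map_mul, map_mul,
          map_pow]
        have : algebraMap ℂ[X] LA (C (n : ℂ)) = (n : LA) := by simp
        rw [this, mul_assoc]
        rfl
      rw [e1, e2, Derivation.leibniz, Derivation.leibniz_pow, Derivation.map_algebraMap, smul_zero,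
        add_zero, ← Nat.cast_smul_eq_nsmul LA, smul_smul, smul_smul, mul_assoc]
  have hgen : ∀ a : LA, ∃ f : LA, f • KaehlerDifferential.D ℂ LA tt = KaehlerDifferential.D ℂ LA a := by
    intro a
    obtain ⟨n, p, h⟩ := IsLocalization.Away.surj (1 - X ^ 3 : ℂ[X]) a
    have hu : IsUnit (algebraMap ℂ[X] LA (1 - X ^ 3)) :=
      IsLocalization.Away.algebraMap_isUnit (1 - X ^ 3 : ℂ[X])
    obtain ⟨u, hu⟩ := hu
    have hun : ((↑(u⁻¹) : LA) ^ n) * ((u : LA) ^ n) = 1 := by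
      rw [← mul_pow, Units.inv_mul, one_pow]
    rw [← map_pow] at h
    obtain ⟨f1, h1⟩ := hpoly p
    obtain ⟨f2, h2⟩ := hpoly ((1 - X ^ 3) ^ n)
    refine ⟨(↑(u⁻¹) : LA) ^ n * (f1 - a * f2), ?_⟩
    have e := congrArg (KaehlerDifferential.D ℂ LA) h
    rw [Derivation.leibniz, ← h1, ← h2, map_pow, ← hu] at e
    have e' : (u : LA) ^ n • KaehlerDifferential.D ℂ LA a =
        (f1 - a * f2) • KaehlerDifferential.D ℂ LA tt := by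
      rw [sub_smul, ← e, smul_smul]
      abel
    rw [mul_smul, ← e', smul_smul, hun, one_smul]
  have htop := KaehlerDifferential.span_range_derivation ℂ LA
  have hmem : δ ∈ Submodule.span LA (Set.range (KaehlerDifferential.D ℂ LA)) := by
    rw [htop]; trivial
  induction hmem using Submodule.span_induction with
  | mem x hx => obtain ⟨a, rfl⟩ := hx; exact hgen a
  | zero => exact ⟨0, zero_smul _ _⟩
  | add x y _ _ hx hy =>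
    obtain ⟨f, rfl⟩ := hx
    obtain ⟨g, rfl⟩ := hy
    exact ⟨f + g, add_smul _ _ _⟩
  | smul a x _ hx =>
    obtain ⟨f, rfl⟩ := hx
    exact ⟨a * f, mul_smul _ _ _⟩

variable {w : ℂ}

/-- the good tuples -/
noncomputable def N (ρ₁ : Fin 4 → (LS 1 →ₐ[ℂ] LA)) (ρ₂ : Fin 4 → (LS w →ₐ[ℂ] LA)) :
    Submodule ℂ (Fin 4 → LA) where
  carrier := {f | ∃ (β₁ : Ω[LS 1⁄ℂ]) (β₂ : Ω[LS w⁄ℂ]),
      formMap (ρ₁ 0) β₁ - formMap (ρ₂ 0) β₂ = f 0 • KaehlerDifferential.D ℂ LA tt ∧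
      formMap (ρ₁ 2) β₁ - formMap (ρ₂ 1) β₂ = f 1 • KaehlerDifferential.D ℂ LA tt ∧
      formMap (ρ₁ 1) β₁ - formMap (ρ₂ 2) β₂ = f 2 • KaehlerDifferential.D ℂ LA tt ∧
      formMap (ρ₁ 3) β₁ - formMap (ρ₂ 3) β₂ = f 3 • KaehlerDifferential.D ℂ LA tt}
  add_mem' := by
    rintro f g ⟨β₁, β₂, a0, a1, a2, a3⟩ ⟨γ₁, γ₂, b0, b1, b2, b3⟩
    refine ⟨β₁ + γ₁, β₂ + γ₂, ?_, ?_, ?_, ?_⟩ <;>
      rw [map_add, map_add, Pi.add_apply, add_smul]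
    · rw [← a0, ← b0]; abel
    · rw [← a1, ← b1]; abel
    · rw [← a2, ← b2]; abel
    · rw [← a3, ← b3]; abel
  zero_mem' := ⟨0, 0, by simp, by simp, by simp, by simp⟩
  smul_mem' := by
    rintro c f ⟨β₁, β₂, a0, a1, a2, a3⟩
    refine ⟨c • β₁, c • β₂, ?_, ?_, ?_, ?_⟩ <;>
      rw [formMap_smulC, formMap_smulC, Pi.smul_apply, smul_assoc, ← smul_sub]
    · rw [a0]
    · rw [a1]
    · rw [a2]
    · rw [a3]

theorem D_sq : KaehlerDifferential.D ℂ LA (tt ^ 2) = (2 * tt) • KaehlerDifferential.D ℂ LA tt := by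
  rw [Derivation.leibniz_pow]
  simp only [Nat.add_one_sub_one, pow_one]
  rw [← Nat.cast_smul_eq_nsmul LA, smul_smul]
  norm_num

/-- derivatives of the curves -/
noncomputable def dcurve (c : ℂ) : Fin 4 → (Fin 2 → LA) :=
  ![![c • 1, 2 * tt], ![c • (2 * tt), 1], ![1, 0], ![0, 1]]

theorem D_curve (c : ℂ) (k : Fin 4) (i : Fin 2) :
    KaehlerDifferential.D ℂ LA (curve c k i) = dcurve c k i • KaehlerDifferential.D ℂ LA tt := by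
  fin_cases k <;> fin_cases i
  · simp [curve, dcurve]
  · exact D_sq
  · change KaehlerDifferential.D ℂ LA (c • tt ^ 2) = (c • (2 * tt)) • KaehlerDifferential.D ℂ LA tt
    rw [Derivation.map_smul, D_sq, smul_assoc]
  · simp [curve, dcurve]
  · simp [curve, dcurve]
  · simp [curve, dcurve]
  · simp [curve, dcurve]
  · simp [curve, dcurve]

section
variable {ρ₁ : Fin 4 → (LS 1 →ₐ[ℂ] LA)} {ρ₂ : Fin 4 → (LS w →ₐ[ℂ] LA)}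
    (h₁ : ∀ k (P : MvPolynomial (Fin 2) ℂ), ρ₁ k (algebraMap _ (LS 1) P) =
        MvPolynomial.aeval (curve 1 k) P)
    (h₂ : ∀ k (P : MvPolynomial (Fin 2) ℂ), ρ₂ k (algebraMap _ (LS w) P) =
        MvPolynomial.aeval (curve w k) P)
include h₁ in
theorem memY1 (a : LS 1) (i : Fin 2) :
    ![ρ₁ 0 a * dcurve 1 0 i, ρ₁ 2 a * dcurve 1 2 i, ρ₁ 1 a * dcurve 1 1 i,
      ρ₁ 3 a * dcurve 1 3 i] ∈ N ρ₁ ρ₂ := by
  have key : ∀ k, formMap (ρ₁ k) (a • KaehlerDifferential.D ℂ (LS 1)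
      (algebraMap (MvPolynomial (Fin 2) ℂ) (LS 1) (MvPolynomial.X i))) =
      (ρ₁ k a * dcurve 1 k i) • KaehlerDifferential.D ℂ LA tt := by
    intro k
    rw [formMap_smul_D, h₁, MvPolynomial.aeval_X, D_curve, smul_smul]
  refine ⟨a • KaehlerDifferential.D ℂ (LS 1) (algebraMap (MvPolynomial (Fin 2) ℂ) (LS 1) (MvPolynomial.X i)), 0,
    ?_, ?_, ?_, ?_⟩ <;> rw [key, map_zero, sub_zero] <;> rfl

include h₂ in
theorem memY2 (a : LS w) (i : Fin 2) :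
    ![ρ₂ 0 a * dcurve w 0 i, ρ₂ 1 a * dcurve w 1 i, ρ₂ 2 a * dcurve w 2 i,
      ρ₂ 3 a * dcurve w 3 i] ∈ N ρ₁ ρ₂ := by
  have key : ∀ k, formMap (ρ₂ k) (a • KaehlerDifferential.D ℂ (LS w)
      (algebraMap (MvPolynomial (Fin 2) ℂ) (LS w) (MvPolynomial.X i))) =
      (ρ₂ k a * dcurve w k i) • KaehlerDifferential.D ℂ LA tt := by
    intro k
    rw [formMap_smul_D, h₂, MvPolynomial.aeval_X, D_curve, smul_smul]
  refine ⟨0, -(a • KaehlerDifferential.D ℂ (LS w) (algebraMap (MvPolynomial (Fin 2) ℂ) (LS w) (MvPolynomial.X i))),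
    ?_, ?_, ?_, ?_⟩ <;> rw [map_neg, key, map_zero, zero_sub, neg_neg] <;> rfl

include h₁ in
theorem memP1 (P : MvPolynomial (Fin 2) ℂ) (i : Fin 2) :
    ![MvPolynomial.aeval (curve 1 0) P * dcurve 1 0 i, MvPolynomial.aeval (curve 1 2) P * dcurve 1 2 i,
      MvPolynomial.aeval (curve 1 1) P * dcurve 1 1 i, MvPolynomial.aeval (curve 1 3) P * dcurve 1 3 i] ∈
      N ρ₁ ρ₂ := by
  have := memY1 (ρ₁ := ρ₁) (ρ₂ := ρ₂) h₁ (algebraMap _ (LS 1) P) i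
  simpa only [h₁] using this

include h₂ in
theorem memP2 (P : MvPolynomial (Fin 2) ℂ) (i : Fin 2) :
    ![MvPolynomial.aeval (curve w 0) P * dcurve w 0 i, MvPolynomial.aeval (curve w 1) P * dcurve w 1 i,
      MvPolynomial.aeval (curve w 2) P * dcurve w 2 i, MvPolynomial.aeval (curve w 3) P * dcurve w 3 i] ∈
      N ρ₁ ρ₂ := by
  have := memY2 (ρ₁ := ρ₁) (ρ₂ := ρ₂) h₂ (algebraMap _ (LS w) P) i
  simpa only [h₂] using this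

include h₁ h₂ in
theorem all_mem (hw : w ^ 3 = 1) (hw1 : w ≠ 1)
    (hcond : ∀ (k : Fin 4) (b : LA), ∃ G : LS 1, ρ₁ k G = tt ^ 4 * b ∧ ∀ l, l ≠ k → ρ₁ l G = 0)
    (f : Fin 4 → LA) : f ∈ N ρ₁ ρ₂ := by
  have k2 : algebraMap ℂ LA 2 = 2 := map_ofNat _ 2
  have k3 : algebraMap ℂ LA 3 = 3 := map_ofNat _ 3
  -- level 4
  have a0 : ∀ b : LA, ![tt ^ 4 * b, 0, 0, 0] ∈ N ρ₁ ρ₂ := by
    intro b
    obtain ⟨G, hG, hG'⟩ := hcond 0 b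
    have := memY1 (ρ₁ := ρ₁) (ρ₂ := ρ₂) h₁ G 0
    rw [hG, hG' 2 (by decide), hG' 1 (by decide), hG' 3 (by decide)] at this
    simpa [dcurve] using this
  have a1 : ∀ b : LA, ![0, tt ^ 4 * b, 0, 0] ∈ N ρ₁ ρ₂ := by
    intro b
    obtain ⟨G, hG, hG'⟩ := hcond 2 b
    have := memY1 (ρ₁ := ρ₁) (ρ₂ := ρ₂) h₁ G 0
    rw [hG, hG' 0 (by decide), hG' 1 (by decide), hG' 3 (by decide)] at this
    simpa [dcurve] using this
  have a2 : ∀ b : LA, ![0, 0, tt ^ 4 * b, 0] ∈ N ρ₁ ρ₂ := by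
    intro b
    obtain ⟨G, hG, hG'⟩ := hcond 1 b
    have := memY1 (ρ₁ := ρ₁) (ρ₂ := ρ₂) h₁ G 1
    rw [hG, hG' 0 (by decide), hG' 2 (by decide), hG' 3 (by decide)] at this
    simpa [dcurve] using this
  have a3 : ∀ b : LA, ![0, 0, 0, tt ^ 4 * b] ∈ N ρ₁ ρ₂ := by
    intro b
    obtain ⟨G, hG, hG'⟩ := hcond 3 b
    have := memY1 (ρ₁ := ρ₁) (ρ₂ := ρ₂) h₁ G 1
    rw [hG, hG' 0 (by decide), hG' 2 (by decide), hG' 1 (by decide)] at this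
    simpa [dcurve] using this
  -- level 3
  have b0 : ![tt ^ 3, 0, 0, 0] ∈ N ρ₁ ρ₂ := by
    have := memP1 (ρ₁ := ρ₁) (ρ₂ := ρ₂) h₁ (MvPolynomial.X 0 * MvPolynomial.X 1) 0
    simp [curve, dcurve] at this
    have := (N ρ₁ ρ₂).sub_mem this (a2 2)
    convert this using 1
    ext i; fin_cases i <;> simp <;> ring
  have b2 : ![0, 0, tt ^ 3, 0] ∈ N ρ₁ ρ₂ := by
    have := memP1 (ρ₁ := ρ₁) (ρ₂ := ρ₂) h₁ (MvPolynomial.X 0 * MvPolynomial.X 1) 1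
    simp [curve, dcurve] at this
    have := (N ρ₁ ρ₂).sub_mem this (a0 2)
    convert this using 1
    ext i; fin_cases i <;> simp <;> ring
  have b1 : ![0, tt ^ 3, 0, 0] ∈ N ρ₁ ρ₂ := by
    have := memP1 (ρ₁ := ρ₁) (ρ₂ := ρ₂) h₁ (MvPolynomial.X 0 ^ 3) 0
    simp [curve, dcurve] at this
    have := (N ρ₁ ρ₂).sub_mem ((N ρ₁ ρ₂).sub_mem this b0) (a2 (2 * tt ^ 3))
    convert this using 1
    ext i; fin_cases i <;> simp <;> ring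
  have b3 : ![0, 0, 0, tt ^ 3] ∈ N ρ₁ ρ₂ := by
    have := memP1 (ρ₁ := ρ₁) (ρ₂ := ρ₂) h₁ (MvPolynomial.X 1 ^ 3) 1
    simp [curve, dcurve] at this
    have := (N ρ₁ ρ₂).sub_mem ((N ρ₁ ρ₂).sub_mem this b2) (a0 (2 * tt ^ 3))
    convert this using 1
    ext i; fin_cases i <;> simp <;> ring
  -- level 2
  have p2a := memP1 (ρ₁ := ρ₁) (ρ₂ := ρ₂) h₁ (MvPolynomial.X 0) 1
  have p2b := memP1 (ρ₁ := ρ₁) (ρ₂ := ρ₂) h₁ (MvPolynomial.X 1) 0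
  have p2c := memP1 (ρ₁ := ρ₁) (ρ₂ := ρ₂) h₁ (MvPolynomial.X 0 ^ 2) 0
  have p2d := memP1 (ρ₁ := ρ₁) (ρ₂ := ρ₂) h₁ (MvPolynomial.X 1 ^ 2) 1
  simp [curve, dcurve] at p2a p2b p2c p2d
  have c0 : ![tt ^ 2, 0, 0, 0] ∈ N ρ₁ ρ₂ := by
    rw [← (N ρ₁ ρ₂).smul_mem_iff (by norm_num : (3 : ℂ) ≠ 0)]
    have := (N ρ₁ ρ₂).sub_mem ((N ρ₁ ρ₂).smul_mem 2 p2a) p2b
    convert this using 1
    ext i; fin_cases i <;> simp [Algebra.smul_def, k2, k3] <;> ring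
  have c2 : ![0, 0, tt ^ 2, 0] ∈ N ρ₁ ρ₂ := by
    rw [← (N ρ₁ ρ₂).smul_mem_iff (by norm_num : (3 : ℂ) ≠ 0)]
    have := (N ρ₁ ρ₂).sub_mem ((N ρ₁ ρ₂).smul_mem 2 p2b) p2a
    convert this using 1
    ext i; fin_cases i <;> simp [Algebra.smul_def, k2, k3] <;> ring
  have c1 : ![0, tt ^ 2, 0, 0] ∈ N ρ₁ ρ₂ := by
    have := (N ρ₁ ρ₂).sub_mem ((N ρ₁ ρ₂).sub_mem p2c c0) (a2 (2 * tt))
    convert this using 1
    ext i; fin_cases i <;> simp <;> ring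
  have c3 : ![0, 0, 0, tt ^ 2] ∈ N ρ₁ ρ₂ := by
    have := (N ρ₁ ρ₂).sub_mem ((N ρ₁ ρ₂).sub_mem p2d c2) (a0 (2 * tt))
    convert this using 1
    ext i; fin_cases i <;> simp <;> ring
  -- level 1
  have p1a := memP1 (ρ₁ := ρ₁) (ρ₂ := ρ₂) h₁ (MvPolynomial.X 0) 0
  have p1b := memP1 (ρ₁ := ρ₁) (ρ₂ := ρ₂) h₁ (MvPolynomial.X 1) 1
  have p1c := memP2 (ρ₁ := ρ₁) (ρ₂ := ρ₂) h₂ (MvPolynomial.X 0) 0
  have p1d := memP2 (ρ₁ := ρ₁) (ρ₂ := ρ₂) h₂ (MvPolynomial.X 1) 1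
  simp [curve, dcurve] at p1a p1b p1c p1d
  have v1 : ![tt, tt, 0, 0] ∈ N ρ₁ ρ₂ := by
    have := (N ρ₁ ρ₂).sub_mem p1a ((N ρ₁ ρ₂).smul_mem 2 b2)
    convert this using 1
    ext i; fin_cases i <;> simp [Algebra.smul_def, k2, k3] <;> ring
  have v2 : ![0, 0, tt, tt] ∈ N ρ₁ ρ₂ := by
    have := (N ρ₁ ρ₂).sub_mem p1b ((N ρ₁ ρ₂).smul_mem 2 b0)
    convert this using 1
    ext i; fin_cases i <;> simp [Algebra.smul_def, k2, k3] <;> ring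
  have v3 : ![w ^ 2 • tt, 0, tt, 0] ∈ N ρ₁ ρ₂ := by
    have := (N ρ₁ ρ₂).sub_mem p1c ((N ρ₁ ρ₂).smul_mem (2 * w ^ 2) b1)
    convert this using 1
    ext i; fin_cases i <;> simp [Algebra.smul_def, k2, k3] <;> ring
  have v4 : ![0, tt, 0, tt] ∈ N ρ₁ ρ₂ := by
    have := (N ρ₁ ρ₂).sub_mem p1d ((N ρ₁ ρ₂).smul_mem 2 b0)
    convert this using 1
    ext i; fin_cases i <;> simp [Algebra.smul_def, k2, k3] <;> ring
  have hw2 : (1 : ℂ) - w ^ 2 ≠ 0 := by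
    intro h
    apply hw1
    have h2 : w ^ 2 = 1 := by linear_combination -h
    calc w = w ^ 3 * 1 - w * (w ^ 2 - 1) := by ring
      _ = 1 := by rw [hw, h2]; ring
  have hw3 : (1 : ℂ) - w ≠ 0 := fun h => hw1 (by linear_combination -h)
  have d0 : ![tt, 0, 0, 0] ∈ N ρ₁ ρ₂ := by
    rw [← (N ρ₁ ρ₂).smul_mem_iff hw2]
    have := (N ρ₁ ρ₂).sub_mem ((N ρ₁ ρ₂).sub_mem ((N ρ₁ ρ₂).add_mem v1 v2) v3) v4
    convert this using 1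
    ext i; fin_cases i <;> simp [Algebra.smul_def, k2, k3] <;> ring
  have d1 : ![0, tt, 0, 0] ∈ N ρ₁ ρ₂ := by
    have := (N ρ₁ ρ₂).sub_mem v1 d0
    convert this using 1
    ext i; fin_cases i <;> simp
  have d3 : ![0, 0, 0, tt] ∈ N ρ₁ ρ₂ := by
    have := (N ρ₁ ρ₂).sub_mem v4 d1
    convert this using 1
    ext i; fin_cases i <;> simp
  have d2 : ![0, 0, tt, 0] ∈ N ρ₁ ρ₂ := by
    have := (N ρ₁ ρ₂).sub_mem v2 d3
    convert this using 1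
    ext i; fin_cases i <;> simp
  -- level 0
  have q0a := memP1 (ρ₁ := ρ₁) (ρ₂ := ρ₂) h₁ 1 0
  have q0b := memP1 (ρ₁ := ρ₁) (ρ₂ := ρ₂) h₁ 1 1
  have q0c := memP2 (ρ₁ := ρ₁) (ρ₂ := ρ₂) h₂ 1 0
  have q0d := memP2 (ρ₁ := ρ₁) (ρ₂ := ρ₂) h₂ 1 1
  simp [curve, dcurve] at q0a q0b q0c q0d
  have u1 : ![(1 : LA), 1, 0, 0] ∈ N ρ₁ ρ₂ := by
    have := (N ρ₁ ρ₂).sub_mem q0a ((N ρ₁ ρ₂).smul_mem 2 d2)
    convert this using 1
    ext i; fin_cases i <;> simp [Algebra.smul_def, k2, k3]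
  have u2 : ![(0 : LA), 0, 1, 1] ∈ N ρ₁ ρ₂ := by
    have := (N ρ₁ ρ₂).sub_mem q0b ((N ρ₁ ρ₂).smul_mem 2 d0)
    convert this using 1
    ext i; fin_cases i <;> simp [Algebra.smul_def, k2, k3]
  have u3 : ![w • (1 : LA), 0, 1, 0] ∈ N ρ₁ ρ₂ := by
    have := (N ρ₁ ρ₂).sub_mem q0c ((N ρ₁ ρ₂).smul_mem (2 * w) d1)
    convert this using 1
    ext i; fin_cases i <;> simp [Algebra.smul_def, k2, k3] <;> ring
  have u4 : ![(0 : LA), 1, 0, 1] ∈ N ρ₁ ρ₂ := by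
    have := (N ρ₁ ρ₂).sub_mem q0d ((N ρ₁ ρ₂).smul_mem 2 d0)
    convert this using 1
    ext i; fin_cases i <;> simp [Algebra.smul_def, k2, k3]
  have e0 : ![(1 : LA), 0, 0, 0] ∈ N ρ₁ ρ₂ := by
    rw [← (N ρ₁ ρ₂).smul_mem_iff hw3]
    have := (N ρ₁ ρ₂).sub_mem ((N ρ₁ ρ₂).sub_mem ((N ρ₁ ρ₂).add_mem u1 u2) u3) u4
    convert this using 1
    ext i; fin_cases i <;> simp [Algebra.smul_def, k2, k3]
  have e1 : ![(0 : LA), 1, 0, 0] ∈ N ρ₁ ρ₂ := by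
    have := (N ρ₁ ρ₂).sub_mem u1 e0
    convert this using 1
    ext i; fin_cases i <;> simp
  have e3 : ![(0 : LA), 0, 0, 1] ∈ N ρ₁ ρ₂ := by
    have := (N ρ₁ ρ₂).sub_mem u4 e1
    convert this using 1
    ext i; fin_cases i <;> simp
  have e2 : ![(0 : LA), 0, 1, 0] ∈ N ρ₁ ρ₂ := by
    have := (N ρ₁ ρ₂).sub_mem u2 e3
    convert this using 1
    ext i; fin_cases i <;> simp
  -- all
  have g0 : ∀ g : LA, ![g, 0, 0, 0] ∈ N ρ₁ ρ₂ := by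
    intro g
    obtain ⟨k0, k1, k2, k3, b, hb⟩ := tt_decomp4 g
    have := (N ρ₁ ρ₂).add_mem ((N ρ₁ ρ₂).add_mem ((N ρ₁ ρ₂).add_mem ((N ρ₁ ρ₂).add_mem
      ((N ρ₁ ρ₂).smul_mem k0 e0) ((N ρ₁ ρ₂).smul_mem k1 d0)) ((N ρ₁ ρ₂).smul_mem k2 c0))
      ((N ρ₁ ρ₂).smul_mem k3 b0)) (a0 b)
    convert this using 1
    ext i; fin_cases i <;> simp [hb]
  have g1 : ∀ g : LA, ![0, g, 0, 0] ∈ N ρ₁ ρ₂ := by
    intro g
    obtain ⟨k0, k1, k2, k3, b, hb⟩ := tt_decomp4 g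
    have := (N ρ₁ ρ₂).add_mem ((N ρ₁ ρ₂).add_mem ((N ρ₁ ρ₂).add_mem ((N ρ₁ ρ₂).add_mem
      ((N ρ₁ ρ₂).smul_mem k0 e1) ((N ρ₁ ρ₂).smul_mem k1 d1)) ((N ρ₁ ρ₂).smul_mem k2 c1))
      ((N ρ₁ ρ₂).smul_mem k3 b1)) (a1 b)
    convert this using 1
    ext i; fin_cases i <;> simp [hb]
  have g2 : ∀ g : LA, ![0, 0, g, 0] ∈ N ρ₁ ρ₂ := by
    intro g
    obtain ⟨k0, k1, k2, k3, b, hb⟩ := tt_decomp4 g
    have := (N ρ₁ ρ₂).add_mem ((N ρ₁ ρ₂).add_mem ((N ρ₁ ρ₂).add_mem ((N ρ₁ ρ₂).add_mem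
      ((N ρ₁ ρ₂).smul_mem k0 e2) ((N ρ₁ ρ₂).smul_mem k1 d2)) ((N ρ₁ ρ₂).smul_mem k2 c2))
      ((N ρ₁ ρ₂).smul_mem k3 b2)) (a2 b)
    convert this using 1
    ext i; fin_cases i <;> simp [hb]
  have g3 : ∀ g : LA, ![0, 0, 0, g] ∈ N ρ₁ ρ₂ := by
    intro g
    obtain ⟨k0, k1, k2, k3, b, hb⟩ := tt_decomp4 g
    have := (N ρ₁ ρ₂).add_mem ((N ρ₁ ρ₂).add_mem ((N ρ₁ ρ₂).add_mem ((N ρ₁ ρ₂).add_mem
      ((N ρ₁ ρ₂).smul_mem k0 e3) ((N ρ₁ ρ₂).smul_mem k1 d3)) ((N ρ₁ ρ₂).smul_mem k2 c3))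
      ((N ρ₁ ρ₂).smul_mem k3 b3)) (a3 b)
    convert this using 1
    ext i; fin_cases i <;> simp [hb]
  have := (N ρ₁ ρ₂).add_mem ((N ρ₁ ρ₂).add_mem ((N ρ₁ ρ₂).add_mem (g0 (f 0)) (g1 (f 1)))
    (g2 (f 2))) (g3 (f 3))
  convert this using 1
  ext i; fin_cases i <;> simp

end

end FS

theorem forms_surjective (w : ℂ) (hw : w ^ 3 = 1) (hw1 : w ≠ 1)
    (ρ₁ : Fin 4 → (LS 1 →ₐ[ℂ] LA)) (ρ₂ : Fin 4 → (LS w →ₐ[ℂ] LA))
    (h₁ : ∀ k (P : MvPolynomial (Fin 2) ℂ), ρ₁ k (algebraMap _ (LS 1) P) =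
        MvPolynomial.aeval (curve 1 k) P)
    (h₂ : ∀ k (P : MvPolynomial (Fin 2) ℂ), ρ₂ k (algebraMap _ (LS w) P) =
        MvPolynomial.aeval (curve w k) P)
    (hcond : ∀ (k : Fin 4) (b : LA), ∃ G : LS 1, ρ₁ k G = tt ^ 4 * b ∧ ∀ l, l ≠ k → ρ₁ l G = 0)
    (δ : Fin 4 → Ω[LA⁄ℂ]) :
    ∃ (β₁ : Ω[LS 1⁄ℂ]) (β₂ : Ω[LS w⁄ℂ]),
      formMap (ρ₁ 0) β₁ - formMap (ρ₂ 0) β₂ = δ 0 ∧
      formMap (ρ₁ 2) β₁ - formMap (ρ₂ 1) β₂ = δ 1 ∧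
      formMap (ρ₁ 1) β₁ - formMap (ρ₂ 2) β₂ = δ 2 ∧
      formMap (ρ₁ 3) β₁ - formMap (ρ₂ 3) β₂ = δ 3 := by
  choose f hf using FS.forms_span
  obtain ⟨β₁, β₂, e0, e1, e2, e3⟩ := FS.all_mem h₁ h₂ hw hw1 hcond (fun l => f (δ l))
  refine ⟨β₁, β₂, ?_, ?_, ?_, ?_⟩
  · rw [e0, hf]
  · rw [e1, hf]
  · rw [e2, hf]
  · rw [e3, hf]

end Pool.Agent.Helper165.DB
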