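import Pool.Agent.Helper165.DB.Ex

set_option autoImplicit false

open Polynomial

namespace Pool.Agent.Helper165.DB

theorem unit_tt : IsUnit (1 - tt ^ 3 : LA) := by
  have h := IsLocalization.Away.algebraMap_isUnit (S := LA) (1 - X ^ 3 : ℂ[X])
  rw [map_sub, map_one, map_pow] at h
  exact h

theorem aeval_hpol (c : ℂ) (hc : c ^ 3 = 1) (k : Fin 4) :
    MvPolynomial.aeval (curve c k) (hpol c) = 1 - tt ^ 3 := by
  have ha : (algebraMap ℂ LA c) ^ 3 = 1 := by rw [← map_pow, hc, map_one]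
  unfold hpol
  simp only [map_add, map_sub, map_one, map_pow, map_mul, MvPolynomial.aeval_X,
    MvPolynomial.algHom_C]
  generalize hA : algebraMap ℂ LA c = a at ha
  fin_cases k
  · change (1 : LA) - (c • tt) ^ 3 - (tt ^ 2) ^ 3 + a * ((c • tt) ^ 2 * (tt ^ 2) ^ 2) = _
    rw [Algebra.smul_def, hA]
    linear_combination (tt ^ 6 - tt ^ 3) * ha
  · change (1 : LA) - (c • tt ^ 2) ^ 3 - tt ^ 3 + a * ((c • tt ^ 2) ^ 2 * tt ^ 2) = _
    rw [Algebra.smul_def, hA]
    ring
  · change (1 : LA) - tt ^ 3 - 0 ^ 3 + a * (tt ^ 2 * 0 ^ 2) = _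
    ring
  · change (1 : LA) - 0 ^ 3 - tt ^ 3 + a * (0 ^ 2 * tt ^ 2) = _
    ring

theorem hpol_ne_zero' (c : ℂ) : hpol c ≠ 0 := by
  intro h
  have := congrArg (MvPolynomial.aeval (fun _ : Fin 2 => (0 : ℂ))) h
  unfold hpol at this
  simp at this

theorem exists_rho (ev : LA →ₐ[ℂ] ℂ) (hev : ev tt = 0) (c : ℂ) (hc : c ^ 3 = 1) :
    ∃ (ρ : Fin 4 → (LS c →ₐ[ℂ] LA)) (ε : LS c →ₐ[ℂ] ℂ),
      (∀ k (P : MvPolynomial (Fin 2) ℂ), ρ k (algebraMap _ (LS c) P) =
        MvPolynomial.aeval (curve c k) P) ∧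
      (∀ k s, ev (ρ k s) = ε s) ∧
      (∀ (k : Fin 4) (b : LA), ∃ G : LS c, ρ k G = tt ^ 4 * b ∧ ∀ l, l ≠ k → ρ l G = 0) ∧
      (∃ G : LS c, G ≠ 0 ∧ ∀ k, ρ k G = 0) := by
  have ha : (algebraMap ℂ LA c) ^ 3 = 1 := by rw [← map_pow, hc, map_one]
  have hunit : ∀ (k : Fin 4) (y : Submonoid.powers (hpol c)),
      IsUnit (MvPolynomial.aeval (curve c k) (y : MvPolynomial (Fin 2) ℂ)) := by
    rintro k ⟨_, n, rfl⟩
    simp only [map_pow, aeval_hpol c hc k]
    exact unit_tt.pow n
  let ρ : Fin 4 → (LS c →ₐ[ℂ] LA) := fun k =>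
    IsLocalization.liftAlgHom (M := Submonoid.powers (hpol c)) (S := LS c)
      (f := MvPolynomial.aeval (curve c k)) (hunit k)
  have hρ : ∀ k (P : MvPolynomial (Fin 2) ℂ), ρ k (algebraMap _ (LS c) P) =
        MvPolynomial.aeval (curve c k) P := by
    intro k P
    simp only [ρ]
    rw [IsLocalization.liftAlgHom_apply]
    exact IsLocalization.lift_eq _ _
  have hcv : ∀ k i, ev (curve c k i) = 0 := by
    intro k i
    fin_cases k <;> fin_cases i <;> simp [curve, hev]
  -- the inverse of `hpol`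
  obtain ⟨η, hη⟩ : ∃ η : LS c, algebraMap _ (LS c) (hpol c) * η = 1 := by
    obtain ⟨u, hu⟩ := IsLocalization.Away.algebraMap_isUnit (S := LS c) (hpol c)
    exact ⟨↑u⁻¹, by rw [← hu, Units.mul_inv]⟩
  have hρη : ∀ k, (1 - tt ^ 3) * ρ k η = 1 := by
    intro k
    have := congrArg (ρ k) hη
    rwa [map_mul, hρ, aeval_hpol c hc, map_one] at this
  -- values at coordinates
  let x : LS c := algebraMap (MvPolynomial (Fin 2) ℂ) (LS c) (MvPolynomial.X 0)
  let y : LS c := algebraMap (MvPolynomial (Fin 2) ℂ) (LS c) (MvPolynomial.X 1)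
  have hx : ∀ k, ρ k x = curve c k 0 := by
    intro k; rw [show ρ k x = _ from hρ k _, MvPolynomial.aeval_X]
  have hy : ∀ k, ρ k y = curve c k 1 := by
    intro k; rw [show ρ k y = _ from hρ k _, MvPolynomial.aeval_X]
  have hsm : ∀ k (r : ℂ) z, ρ k (r • z) = algebraMap ℂ LA r * ρ k z := by
    intro k r z; rw [map_smul, Algebra.smul_def]
  generalize hA : algebraMap ℂ LA c = a at ha
  have x0 : ρ 0 x = a * tt := by rw [hx]; change c • tt = _; rw [Algebra.smul_def, hA]
  have y0 : ρ 0 y = tt ^ 2 := by rw [hy]; rfl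
  have x1 : ρ 1 x = a * tt ^ 2 := by rw [hx]; change c • tt ^ 2 = _; rw [Algebra.smul_def, hA]
  have y1 : ρ 1 y = tt := by rw [hy]; rfl
  have x2 : ρ 2 x = tt := by rw [hx]; rfl
  have y2 : ρ 2 y = 0 := by rw [hy]; rfl
  have x3 : ρ 3 x = 0 := by rw [hx]; rfl
  have y3 : ρ 3 y = tt := by rw [hy]; rfl
  -- surjectivity
  have hsurj : ∀ (k : Fin 4) (b : LA), ∃ G : LS c, ρ k G = b := by
    intro k b
    obtain ⟨⟨p, ⟨_, n, rfl⟩⟩, hp⟩ := IsLocalization.surj (Submonoid.powers (1 - X ^ 3 : ℂ[X])) b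
    simp only [map_pow, map_sub, map_one] at hp
    change b * (1 - tt ^ 3) ^ n = algebraMap ℂ[X] LA p at hp
    obtain ⟨e, he⟩ : ∃ e : LS c, ρ k e = tt := by
      fin_cases k
      · refine ⟨(c ^ 2) • x, ?_⟩
        change ρ 0 ((c ^ 2) • x) = tt
        rw [map_smul, x0, Algebra.smul_def, map_pow, hA]
        linear_combination tt * ha
      · exact ⟨y, y1⟩
      · exact ⟨x, x2⟩
      · exact ⟨y, y3⟩
    have hpe : ρ k (aeval e p) = algebraMap ℂ[X] LA p := by
      rw [← Polynomial.aeval_algHom_apply, he]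
      have : aeval tt p = algebraMap ℂ[X] LA (aeval (X : ℂ[X]) p) := by
        unfold tt
        rw [Polynomial.aeval_algebraMap_apply]
      rw [this, Polynomial.aeval_X_left, AlgHom.id_apply]
    refine ⟨aeval e p * η ^ n, ?_⟩
    rw [map_mul, map_pow, hpe, ← hp]
    have : ((1 - tt ^ 3) * ρ k η) ^ n = 1 := by rw [hρη, one_pow]
    rw [mul_pow] at this
    rw [mul_assoc, this, mul_one]
  refine ⟨ρ, ev.comp (ρ 0), hρ, ?_, ?_, ?_⟩
  · -- all evaluations agree
    intro k s
    have key : (ev.comp (ρ k)).toRingHom = (ev.comp (ρ 0)).toRingHom := by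
      apply IsLocalization.ringHom_ext (Submonoid.powers (hpol c))
      have hk : ∀ k, ((ev.comp (ρ k)).toRingHom).comp (algebraMap (MvPolynomial (Fin 2) ℂ) (LS c))
          = (MvPolynomial.aeval (fun _ : Fin 2 => (0 : ℂ))).toRingHom := by
        intro k
        apply RingHom.ext
        intro P
        change ev (ρ k (algebraMap _ (LS c) P)) = MvPolynomial.aeval (fun _ : Fin 2 => (0 : ℂ)) P
        rw [hρ]
        have : (ev.comp (MvPolynomial.aeval (curve c k))) P
            = MvPolynomial.aeval (fun i => ev (curve c k i)) P := by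
          rw [← MvPolynomial.comp_aeval]
        rw [AlgHom.comp_apply] at this
        rw [this]
        simp only [hcv]
      rw [hk k, hk 0]
    exact congrArg (fun f : LS c →+* ℂ => f s) key
  · intro k b
    have u1 := hρη k
    fin_cases k
    · obtain ⟨w, hw⟩ := hsurj 0 (a * ρ 0 η * b)
      refine ⟨y * (x - c • y ^ 2) * x * w, ?_, ?_⟩
      · change ρ 0 _ = _
        change (1 - tt ^ 3) * ρ 0 η = 1 at u1
        simp only [map_mul, map_sub, map_pow, hsm, hA, x0, y0, hw]
        linear_combination (a ^ 3 * tt ^ 4 * b) * u1 + tt ^ 4 * b * ha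
      · intro l hl
        fin_cases l
        · exact absurd rfl hl
        · change ρ 1 _ = 0
          simp only [map_mul, map_sub, map_pow, hsm, hA, x1, y1]
          ring
        · change ρ 2 _ = 0
          simp only [map_mul, map_sub, map_pow, hsm, hA, y2]; ring
        · change ρ 3 _ = 0
          simp only [map_mul, map_sub, map_pow, hsm, hA, x3]; ring
    · obtain ⟨w, hw⟩ := hsurj 1 (ρ 1 η * b)
      refine ⟨(c ^ 2 • y - x ^ 2) * y * x * w, ?_, ?_⟩
      · change ρ 1 _ = _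
        change (1 - tt ^ 3) * ρ 1 η = 1 at u1
        simp only [map_mul, map_sub, map_pow, hsm, hA, x1, y1, hw]
        linear_combination (a ^ 3 * tt ^ 4 * b) * u1 + tt ^ 4 * b * ha
      · intro l hl
        fin_cases l
        · change ρ 0 _ = 0
          simp only [map_mul, map_sub, map_pow, hsm, hA, x0, y0]
          ring
        · exact absurd rfl hl
        · change ρ 2 _ = 0
          simp only [map_mul, map_sub, map_pow, hsm, hA, y2]; ring
        · change ρ 3 _ = 0
          simp only [map_mul, map_sub, map_pow, hsm, hA, x3]; ring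
    · obtain ⟨w, hw⟩ := hsurj 2 (-b)
      refine ⟨(c ^ 2 • y - x ^ 2) * (x - c • y ^ 2) * x * w, ?_, ?_⟩
      · change ρ 2 _ = _
        simp only [map_mul, map_sub, map_pow, hsm, hA, x2, y2, hw]
        simp only [smul_zero, ne_eq, OfNat.ofNat_ne_zero, not_false_eq_true, zero_pow]
        ring
      · intro l hl
        fin_cases l
        · change ρ 0 _ = 0
          simp only [map_mul, map_sub, map_pow, hsm, hA, x0, y0]
          ring
        · change ρ 1 _ = 0
          simp only [map_mul, map_sub, map_pow, hsm, hA, x1, y1]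
          ring
        · exact absurd rfl hl
        · change ρ 3 _ = 0
          simp only [map_mul, map_sub, map_pow, hsm, hA, x3]; ring
    · obtain ⟨w, hw⟩ := hsurj 3 (-b)
      refine ⟨(c ^ 2 • y - x ^ 2) * y * (x - c • y ^ 2) * w, ?_, ?_⟩
      · change ρ 3 _ = _
        simp only [map_mul, map_sub, map_pow, hsm, hA, x3, y3, hw]
        linear_combination (tt ^ 4 * b) * ha
      · intro l hl
        fin_cases l
        · change ρ 0 _ = 0
          simp only [map_mul, map_sub, map_pow, hsm, hA, x0, y0]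
          ring
        · change ρ 1 _ = 0
          simp only [map_mul, map_sub, map_pow, hsm, hA, x1, y1]
          ring
        · change ρ 2 _ = 0
          simp only [map_mul, map_sub, map_pow, hsm, hA, y2]; ring
        · exact absurd rfl hl
  · refine ⟨algebraMap (MvPolynomial (Fin 2) ℂ) (LS c) (MvPolynomial.X 0 * MvPolynomial.X 1 *
      (MvPolynomial.C (c ^ 2) * MvPolynomial.X 1 - MvPolynomial.X 0 ^ 2) *
      (MvPolynomial.X 0 - MvPolynomial.C c * MvPolynomial.X 1 ^ 2)), ?_, ?_⟩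
    · have hinj : Function.Injective (algebraMap (MvPolynomial (Fin 2) ℂ) (LS c)) :=
        IsLocalization.injective (LS c) (powers_le_nonZeroDivisors_of_noZeroDivisors (hpol_ne_zero' c))
      rw [map_ne_zero_iff _ hinj]
      refine mul_ne_zero (mul_ne_zero (mul_ne_zero (MvPolynomial.X_ne_zero _)
        (MvPolynomial.X_ne_zero _)) ?_) ?_
      · intro h
        have := congrArg (MvPolynomial.aeval (fun i : Fin 2 => if i = 0 then (1 : ℂ) else 0)) h
        simp at this
      · intro h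
        have := congrArg (MvPolynomial.aeval (fun i : Fin 2 => if i = 0 then (1 : ℂ) else 0)) h
        simp at this
    · intro k
      rw [hρ]
      simp only [map_mul, map_sub, map_pow, MvPolynomial.aeval_X, MvPolynomial.algHom_C]
      rw [hA, ← hx, ← hy]
      fin_cases k
      · change ρ 0 x * ρ 0 y * (a ^ 2 * ρ 0 y - ρ 0 x ^ 2) * (ρ 0 x - a * ρ 0 y ^ 2) = 0
        rw [x0, y0]; ring
      · change ρ 1 x * ρ 1 y * (a ^ 2 * ρ 1 y - ρ 1 x ^ 2) * (ρ 1 x - a * ρ 1 y ^ 2) = 0
        rw [x1, y1]; ring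
      · change ρ 2 x * ρ 2 y * (a ^ 2 * ρ 2 y - ρ 2 x ^ 2) * (ρ 2 x - a * ρ 2 y ^ 2) = 0
        rw [x2, y2]; ring
      · change ρ 3 x * ρ 3 y * (a ^ 2 * ρ 3 y - ρ 3 x ^ 2) * (ρ 3 x - a * ρ 3 y ^ 2) = 0
        rw [x3, y3]; ring

end Pool.Agent.Helper165.DB
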