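import Pool.Agent.Helper165.DB.Ex

set_option autoImplicit false

open Polynomial

namespace Pool.Agent.Helper165.DB

theorem smooth_LA : Algebra.Smooth ℂ LA := by
  have h1 : Algebra.Smooth ℂ ℂ[X] := {}
  have h2 : Algebra.Smooth ℂ[X] LA := Algebra.Smooth.of_isLocalization_Away (1 - X ^ 3 : ℂ[X])
  exact Algebra.Smooth.comp ℂ ℂ[X] LA

theorem smooth_LS (c : ℂ) : Algebra.Smooth ℂ (LS c) := by
  have h1 : Algebra.Smooth ℂ (MvPolynomial (Fin 2) ℂ) := {}
  have h2 : Algebra.Smooth (MvPolynomial (Fin 2) ℂ) (LS c) :=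
    Algebra.Smooth.of_isLocalization_Away (hpol c)
  exact Algebra.Smooth.comp ℂ (MvPolynomial (Fin 2) ℂ) (LS c)

theorem smooth_C : Algebra.Smooth ℂ ℂ := inferInstance

end Pool.Agent.Helper165.DB
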