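import Pool.Agent.Helper165.DB.Ex

set_option autoImplicit false

open Polynomial

namespace Pool.Agent.Helper165.DB

/-- The four parametrized curves, as polynomials. -/
noncomputable def qcurve (c : ℂ) : Fin 4 → (Fin 2 → ℂ[X]) :=
  ![![C c * X, X ^ 2], ![C c * X ^ 2, X], ![X, 0], ![0, X]]

theorem curve_eq (c : ℂ) (k : Fin 4) (i : Fin 2) :
    curve c k i = algebraMap ℂ[X] LA (qcurve c k i) := by
  have hC : (algebraMap ℂ LA) c = (algebraMap ℂ[X] LA) (C c) := by
    rw [IsScalarTower.algebraMap_apply ℂ ℂ[X] LA]; rfl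
  fin_cases k <;> fin_cases i <;> simp [curve, qcurve, tt, Algebra.smul_def, hC]

theorem aeval_curve (c : ℂ) (k : Fin 4) (P : MvPolynomial (Fin 2) ℂ) :
    MvPolynomial.aeval (curve c k) P = algebraMap ℂ[X] LA (MvPolynomial.aeval (qcurve c k) P) := by
  have : curve c k = fun i => algebraMap ℂ[X] LA (qcurve c k i) := funext fun i => curve_eq c k i
  rw [this]
  exact MvPolynomial.aeval_algebraMap_apply _ _ _

theorem hpol_eval {c : ℂ} (hc : c ^ 3 = 1) (k : Fin 4) :
    MvPolynomial.aeval (qcurve c k) (hpol c) = 1 - X ^ 3 := by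
  have hC : (C c : ℂ[X]) ^ 3 = 1 := by rw [← C_pow, hc, C_1]
  fin_cases k
  · simp only [hpol, qcurve, map_add, map_sub, map_one, map_pow, map_mul, MvPolynomial.aeval_X,
      MvPolynomial.algHom_C]
    simp
    linear_combination (- X ^ 3 + X ^ 6) * hC
  · simp only [hpol, qcurve, map_add, map_sub, map_one, map_pow, map_mul, MvPolynomial.aeval_X,
      MvPolynomial.algHom_C]
    simp
    linear_combination (- X ^ 6 + X ^ 6) * hC
  · simp [hpol, qcurve]
  · simp [hpol, qcurve]

theorem alt_coeff {c : ℂ} (hc : c ^ 3 = 1) (m : ℕ) (hm : m = 0 ∨ m = 3)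
    (P : MvPolynomial (Fin 2) ℂ) :
    (MvPolynomial.aeval (qcurve c 0) P).coeff m - (MvPolynomial.aeval (qcurve c 1) P).coeff m
      - (MvPolynomial.aeval (qcurve c 2) P).coeff m
      + (MvPolynomial.aeval (qcurve c 3) P).coeff m = 0 := by
  induction P using MvPolynomial.induction_on' with
  | add p q hp hq =>
    simp only [map_add, coeff_add]
    linear_combination hp + hq
  | monomial u a =>
    simp only [MvPolynomial.aeval_monomial, Polynomial.algebraMap_apply, Algebra.algebraMap_self,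
      RingHom.id_apply, coeff_C_mul]
    rw [← mul_sub, ← mul_sub, ← mul_add]
    apply mul_eq_zero_of_right
    simp only [Finsupp.prod_fintype, pow_zero, implies_true, Fin.prod_univ_two]
    generalize u 0 = i
    generalize u 1 = j
    have e0 : (qcurve c 0 0 ^ i * qcurve c 0 1 ^ j) = C (c ^ i) * X ^ (i + 2 * j) := by
      simp [qcurve]; ring
    have e1 : (qcurve c 1 0 ^ i * qcurve c 1 1 ^ j) = C (c ^ i) * X ^ (2 * i + j) := by
      simp [qcurve]; ring
    have e2 : (qcurve c 2 0 ^ i * qcurve c 2 1 ^ j) = X ^ i * 0 ^ j := by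
      simp [qcurve]
    have e3 : (qcurve c 3 0 ^ i * qcurve c 3 1 ^ j) = 0 ^ i * X ^ j := by
      simp [qcurve]
    rw [e0, e1, e2, e3]
    simp only [coeff_C_mul, coeff_X_pow]
    rcases hm with rfl | rfl
    · rcases Nat.eq_zero_or_pos i with hi | hi <;> rcases Nat.eq_zero_or_pos j with hj | hj
      · subst hi; subst hj; simp
      · subst hi
        have h1 : ¬ (0 = 0 + 2 * j) := by omega
        have h2 : ¬ (0 = 2 * 0 + j) := by omega
        have h3 : ¬ (0 = j) := by omega
        simp [h1, h2, h3, hj.ne', coeff_X_pow]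
      · subst hj
        have h1 : ¬ (0 = i + 2 * 0) := by omega
        have h2 : ¬ (0 = 2 * i + 0) := by omega
        have h3 : ¬ (0 = i) := by omega
        simp [h1, h2, h3, hi.ne', coeff_X_pow]
      · have h1 : ¬ (0 = i + 2 * j) := by omega
        have h2 : ¬ (0 = 2 * i + j) := by omega
        simp [h1, h2, hi.ne', hj.ne']
    · rcases Nat.eq_zero_or_pos i with hi | hi <;> rcases Nat.eq_zero_or_pos j with hj | hj
      · subst hi; subst hj; simp [coeff_one]
      · subst hi
        have h1 : ¬ (3 = 0 + 2 * j) := by omega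
        by_cases h3 : 3 = j
        · subst h3; simp [coeff_X_pow]
        · have h2 : ¬ (3 = 2 * 0 + j) := by omega
          simp [h3, hj.ne', coeff_X_pow]
          omega
      · subst hj
        have h2 : ¬ (3 = 2 * i + 0) := by omega
        by_cases h3 : 3 = i
        · subst h3; simp [coeff_X_pow, hc]
        · have h1 : ¬ (3 = i + 2 * 0) := by omega
          simp [h3, hi.ne', coeff_X_pow]
          intro h; omega
      · by_cases h1 : i = 1 ∧ j = 1
        · obtain ⟨rfl, rfl⟩ := h1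
          simp
        · have h2 : ¬ (3 = i + 2 * j) := by omega
          have h3 : ¬ (3 = 2 * i + j) := by omega
          simp [h2, h3, hi.ne', hj.ne']

theorem coeff_cancel (S : PowerSeries ℂ) (n : ℕ) :
    PowerSeries.coeff 0 (S * (1 - PowerSeries.X ^ 3) ^ n) = 0 →
    PowerSeries.coeff 3 (S * (1 - PowerSeries.X ^ 3) ^ n) = 0 →
    PowerSeries.coeff 0 S = 0 ∧ PowerSeries.coeff 3 S = 0 := by
  induction n with
  | zero =>
    intro h0 h3
    rw [pow_zero, mul_one] at h0 h3
    exact ⟨h0, h3⟩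
  | succ n ih =>
    intro h0 h3
    set U := S * (1 - PowerSeries.X ^ 3) ^ n with hU
    have e : S * (1 - PowerSeries.X ^ 3) ^ (n+1) = U - U * PowerSeries.X ^ 3 := by
      rw [hU]; ring
    rw [e] at h0 h3
    rw [map_sub] at h0 h3
    have k0 : PowerSeries.coeff 0 (U * PowerSeries.X ^ 3) = 0 := by
      rw [PowerSeries.coeff_mul_X_pow', if_neg (by norm_num)]
    have k3 : PowerSeries.coeff 3 (U * PowerSeries.X ^ 3) = PowerSeries.coeff 0 U := by
      rw [PowerSeries.coeff_mul_X_pow', if_pos (by norm_num)]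
    rw [k0, sub_zero] at h0
    rw [k3, h0, sub_zero] at h3
    exact ih h0 h3

theorem exists_tau : ∃ τ : LA →+ ℂ, τ (tt ^ 3) = 1 ∧
    ∀ (c : ℂ), c ^ 3 = 1 → ∀ (ρ : Fin 4 → (LS c →ₐ[ℂ] LA)),
      (∀ k (P : MvPolynomial (Fin 2) ℂ), ρ k (algebraMap _ (LS c) P) =
        MvPolynomial.aeval (curve c k) P) →
      ∀ s : LS c, τ (ρ 0 s) - τ (ρ 1 s) - τ (ρ 2 s) + τ (ρ 3 s) = 0 := by
  have hunit : IsUnit (Polynomial.coeToPowerSeries.ringHom (1 - X ^ 3 : ℂ[X])) := by
    rw [PowerSeries.isUnit_iff_constantCoeff]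
    simp [Polynomial.coeToPowerSeries.ringHom_apply]
  set F : LA →+* PowerSeries ℂ := IsLocalization.Away.lift (1 - X ^ 3 : ℂ[X]) hunit with hF
  have hFa : ∀ p : ℂ[X], F (algebraMap ℂ[X] LA p) = (p : PowerSeries ℂ) := by
    intro p
    rw [hF, IsLocalization.Away.lift_eq]
    rfl
  refine ⟨(PowerSeries.coeff (R := ℂ) 3).toAddMonoidHom.comp F.toAddMonoidHom, ?_, ?_⟩
  · have : F (tt ^ 3) = PowerSeries.X ^ 3 := by
      rw [tt, ← map_pow, hFa]; simp
    simp only [AddMonoidHom.comp_apply, RingHom.toAddMonoidHom_eq_coe, AddMonoidHom.coe_coe, LinearMap.toAddMonoidHom_coe, this]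
    simp
  · intro c hc ρ hρ s
    obtain ⟨n, P, hP⟩ := IsLocalization.Away.surj (hpol c) s
    have key : ∀ k, F (ρ k s) * (1 - PowerSeries.X ^ 3) ^ n =
        ((MvPolynomial.aeval (qcurve c k) P : ℂ[X]) : PowerSeries ℂ) := by
      intro k
      have h1 := congrArg (fun x => F (ρ k x)) hP
      simp only [map_mul, map_pow, hρ, aeval_curve, hpol_eval hc, hFa] at h1
      simpa using h1
    have hS := coeff_cancel (F (ρ 0 s) - F (ρ 1 s) - F (ρ 2 s) + F (ρ 3 s)) n (by
      have e : (F (ρ 0 s) - F (ρ 1 s) - F (ρ 2 s) + F (ρ 3 s)) * (1 - PowerSeries.X ^ 3) ^ n =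
        ((MvPolynomial.aeval (qcurve c 0) P : ℂ[X]) : PowerSeries ℂ) -
        ((MvPolynomial.aeval (qcurve c 1) P : ℂ[X]) : PowerSeries ℂ) -
        ((MvPolynomial.aeval (qcurve c 2) P : ℂ[X]) : PowerSeries ℂ) +
        ((MvPolynomial.aeval (qcurve c 3) P : ℂ[X]) : PowerSeries ℂ) := by
        rw [← key 0, ← key 1, ← key 2, ← key 3]; ring
      rw [e]
      simp only [map_add, map_sub, Polynomial.coeff_coe]
      exact alt_coeff hc 0 (Or.inl rfl) P) (by
      have e : (F (ρ 0 s) - F (ρ 1 s) - F (ρ 2 s) + F (ρ 3 s)) * (1 - PowerSeries.X ^ 3) ^ n =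
        ((MvPolynomial.aeval (qcurve c 0) P : ℂ[X]) : PowerSeries ℂ) -
        ((MvPolynomial.aeval (qcurve c 1) P : ℂ[X]) : PowerSeries ℂ) -
        ((MvPolynomial.aeval (qcurve c 2) P : ℂ[X]) : PowerSeries ℂ) +
        ((MvPolynomial.aeval (qcurve c 3) P : ℂ[X]) : PowerSeries ℂ) := by
        rw [← key 0, ← key 1, ← key 2, ← key 3]; ring
      rw [e]
      simp only [map_add, map_sub, Polynomial.coeff_coe]
      exact alt_coeff hc 3 (Or.inr rfl) P)
    have := hS.2
    rw [map_add, map_sub, map_sub] at this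
    exact this

end Pool.Agent.Helper165.DB
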