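import Mathlib

set_option autoImplicit false

namespace Pool.Agent.Helper165.DB

/-- The additive map `Ω_{A/ℂ} → Ω_{B/ℂ}`, `a dx ↦ f(a) d(f x)`, induced on Kähler differentials
by a homomorphism `f : A → B` of `ℂ`-algebras (pull-back of differential forms). -/
noncomputable def formMap {A B : Type} [CommRing A] [CommRing B] [Algebra ℂ A] [Algebra ℂ B]
    (f : A →ₐ[ℂ] B) : Ω[A⁄ℂ] →+ Ω[B⁄ℂ] :=
  letI : Algebra A B := f.toRingHom.toAlgebra
  haveI : IsScalarTower ℂ A B := IsScalarTower.of_algebraMap_eq fun c => (f.commutes c).symm
  (KaehlerDifferential.map ℂ ℂ A B).toAddMonoidHom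

/-- A (finite) smooth hyperresolution `X_• → X` of the affine complex variety `X = Spec R`,
indexed by a finite partially ordered set `ι`: a diagram of smooth affine schemes
`X_i = Spec (A i)`, with maps `X_i → X_j` for `i ≤ j` compatible with finite maps `X_i → X`,
satisfying cohomological descent because of the following property of the fibres: for every
field-valued point `x` of `X` the category of the points of the `X_i` lying over `x` has an
initial object (so the fibre of the homotopy colimit of the diagram over `x` is contractible).
By Du Bois, Guillen, Navarro Aznar, Pascual-Gainza and Puerta the `p`-th graded piece of the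
Du Bois complex of `X` is the derived direct image of the sheaves of `p`-forms of the smooth
varieties of such a diagram; as everything is affine and finite over `X`, its module of derived
global sections is computed by the cochain complex of the diagram of modules `Ω^p_{A i/ℂ}`. -/
structure Hyperresolution (R : Type) [CommRing R] [Algebra ℂ R] where
  /-- the index set -/
  ι : Type
  /-- the order of the index set -/
  le : ι → ι → Prop
  finite_index : Finite ι
  le_refl : ∀ i, le i i
  le_trans : ∀ {i j k}, le i j → le j k → le i k
  le_antisymm : ∀ {i j}, le i j → le j i → i = j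
  /-- the coordinate ring of `X_i` -/
  A : ι → Type
  [ring : ∀ i, CommRing (A i)]
  [alg : ∀ i, Algebra ℂ (A i)]
  /-- the map `X_i → X` -/
  aug : ∀ i, R →ₐ[ℂ] A i
  /-- the map `X_i → X_j` for `i ≤ j` -/
  res : ∀ {i j}, le i j → (A j →ₐ[ℂ] A i)
  res_self : ∀ i, res (le_refl i) = AlgHom.id ℂ (A i)
  res_res : ∀ {i j k} (hij : le i j) (hjk : le j k),
    (res hij).comp (res hjk) = res (le_trans hij hjk)
  res_aug : ∀ {i j} (h : le i j), (res h).comp (aug j) = aug i
  smooth : ∀ i, Algebra.Smooth ℂ (A i)
  finite : ∀ i, (aug i).toRingHom.Finite
  descent : ∀ (K : Type) [Field K] [Algebra ℂ K] (x : R →ₐ[ℂ] K),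
    ∃ (i : ι) (y : A i →ₐ[ℂ] K), y.comp (aug i) = x ∧
      ∀ (j : ι) (z : A j →ₐ[ℂ] K), z.comp (aug j) = x → ∃ h : le i j, y.comp (res h) = z

attribute [instance] Hyperresolution.ring Hyperresolution.alg

/-- Given abelian groups `M i` (`i ∈ ι`) and maps `φ h : M j → M i` for `h : i ≤ j`, the
vanishing of the first cohomology group of the complex
`∏_i M i → ∏_{i ≤ j} M i → ∏_{i ≤ j ≤ k} M i`, that is of the first derived limit of the
system `M`: every family `c` with `φ (c j k) - c i k + c i j = 0` is of the form
`c i j = φ (m j) - m i`. -/
def FirstCohomologyVanishes {ι : Type} (le : ι → ι → Prop) (trans : ∀ {i j k}, le i j → le j k →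
    le i k) (M : ι → Type) [∀ i, AddCommGroup (M i)] (φ : ∀ {i j}, le i j → M j → M i) : Prop :=
  ∀ c : ∀ i j, le i j → M i,
    (∀ (i j k : ι) (hij : le i j) (hjk : le j k),
      φ hij (c j k hjk) - c i k (trans hij hjk) + c i j hij = 0) →
    ∃ m : ∀ i, M i, ∀ (i j : ι) (h : le i j), c i j h = φ h (m j) - m i

/-- Vanishing of the cohomology sheaf `ℋ¹ Ω̲⁰_X` of the Du Bois complex of `X = Spec R`, computed
from the hyperresolution `D`: as `X` and the `X_i` are affine, the module of global sections of
this coherent sheaf is the first cohomology of the complex of the functions on the `X_i`. -/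
def DuBoisH1FunctionsVanishes {R : Type} [CommRing R] [Algebra ℂ R] (D : Hyperresolution R) :
    Prop :=
  FirstCohomologyVanishes D.le D.le_trans D.A (fun h => D.res h)

/-- Vanishing of the cohomology sheaf `ℋ¹ Ω̲¹_X` of the Du Bois complex of `X = Spec R`, computed
from the hyperresolution `D`: as `X` and the `X_i` are affine, the module of global sections of
this coherent sheaf is the first cohomology of the complex of the differential forms of degree
one on the `X_i`. -/
def DuBoisH1FormsVanishes {R : Type} [CommRing R] [Algebra ℂ R] (D : Hyperresolution R) :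
    Prop :=
  FirstCohomologyVanishes D.le D.le_trans (fun i => Ω[D.A i⁄ℂ]) (fun h => formMap (D.res h))

/-- `Spec R` is a complex affine surface: `R` is a reduced `ℂ`-algebra of finite type of Krull
dimension two. -/
structure IsAffineSurface (R : Type) [CommRing R] [Algebra ℂ R] : Prop where
  reduced : IsReduced R
  finiteType : Algebra.FiniteType ℂ R
  dimension : ringKrullDim R = 2

end Pool.Agent.Helper165.DB
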