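import Pool.Agent.Helper165.DB.Glue

set_option autoImplicit false

open Polynomial

namespace Pool.Agent.Helper165.DB

@[simp] theorem formMap_smul_D {A B : Type} [CommRing A] [CommRing B] [Algebra ℂ A]
    [Algebra ℂ B] (f : A →ₐ[ℂ] B) (a x : A) :
    formMap f (a • KaehlerDifferential.D ℂ A x) = f a • KaehlerDifferential.D ℂ B (f x) := by
  letI : Algebra A B := f.toRingHom.toAlgebra
  haveI : IsScalarTower ℂ A B := IsScalarTower.of_algebraMap_eq fun c => (f.commutes c).symm
  change KaehlerDifferential.map ℂ ℂ A B (a • KaehlerDifferential.D ℂ A x) = _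
  rw [map_smul, KaehlerDifferential.map_D]
  rfl

/-- The ring `ℂ[t]` localized at `1 - t³`. -/
abbrev LA : Type := Localization.Away (1 - X ^ 3 : ℂ[X])

/-- The polynomial `1 - x³ - y³ + c x² y²`. -/
noncomputable def hpol (c : ℂ) : MvPolynomial (Fin 2) ℂ :=
  1 - MvPolynomial.X 0 ^ 3 - MvPolynomial.X 1 ^ 3 +
    MvPolynomial.C c * (MvPolynomial.X 0 ^ 2 * MvPolynomial.X 1 ^ 2)

/-- The ring `ℂ[x,y]` localized at `1 - x³ - y³ + c x² y²`. -/
abbrev LS (c : ℂ) : Type := Localization.Away (hpol c)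

/-- The parameter `t` of the curve. -/
noncomputable def tt : LA := algebraMap ℂ[X] LA X

/-- The four parametrized curves `(ct, t²)`, `(ct², t)`, `(t, 0)`, `(0, t)`. -/
noncomputable def curve (c : ℂ) : Fin 4 → (Fin 2 → LA) :=
  ![![c • tt, tt ^ 2], ![c • tt ^ 2, tt], ![tt, 0], ![0, tt]]

end Pool.Agent.Helper165.DB
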