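import Pool.Agent.Helper165.DB.Defs

set_option autoImplicit false

namespace Pool.Agent.Helper165.DB

/-- Two affine schemes `Spec S₁`, `Spec S₂` containing four curves `Spec A` each, meeting at an
origin. `T` is the parameter of `Spec A`. -/
structure GlueData where
  A : Type
  S₁ : Type
  S₂ : Type
  [ringA : CommRing A]
  [ringS₁ : CommRing S₁]
  [ringS₂ : CommRing S₂]
  [algA : Algebra ℂ A]
  [algS₁ : Algebra ℂ S₁]
  [algS₂ : Algebra ℂ S₂]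
  T : A
  ev : A →ₐ[ℂ] ℂ
  ρ₁ : Fin 4 → (S₁ →ₐ[ℂ] A)
  ρ₂ : Fin 4 → (S₂ →ₐ[ℂ] A)
  ε₁ : S₁ →ₐ[ℂ] ℂ
  ε₂ : S₂ →ₐ[ℂ] ℂ
  evT : ev T = 0
  hev : ∀ a : A, ∃ b : A, a = algebraMap ℂ A (ev a) + T * b
  hε₁ : ∀ i s, ev (ρ₁ i s) = ε₁ s
  hε₂ : ∀ i s, ev (ρ₂ i s) = ε₂ s
  cond₁ : ∀ (i : Fin 4) (b : A), ∃ G : S₁, ρ₁ i G = T ^ 4 * b ∧ ∀ k, k ≠ i → ρ₁ k G = 0
  cond₂ : ∀ (i : Fin 4) (b : A), ∃ G : S₂, ρ₂ i G = T ^ 4 * b ∧ ∀ k, k ≠ i → ρ₂ k G = 0

attribute [instance] GlueData.ringA GlueData.ringS₁ GlueData.ringS₂ GlueData.algA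
  GlueData.algS₁ GlueData.algS₂

/-- The index set: origin, four curves, two surfaces. -/
inductive Idx
  | o
  | L (i : Fin 4)
  | Y₁
  | Y₂

namespace Idx

/-- The order `o < L i < Y₁, Y₂`. -/
def le : Idx → Idx → Prop
  | o, _ => True
  | L i, L k => i = k
  | L _, Y₁ => True
  | L _, Y₂ => True
  | Y₁, Y₁ => True
  | Y₂, Y₂ => True
  | _, _ => False

lemma le_refl (i : Idx) : le i i := by cases i <;> simp [le]

lemma le_trans {i j k : Idx} (hij : le i j) (hjk : le j k) : le i k := by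
  cases i <;> cases j <;> cases k <;> simp_all [le]

lemma le_antisymm {i j : Idx} (hij : le i j) (hji : le j i) : i = j := by
  cases i <;> cases j <;> simp_all [le]

lemma finite : Finite Idx := by
  have : Function.Surjective (fun x : Option (Option (Option (Fin 4))) =>
      match x with
      | none => o
      | some none => Y₁
      | some (some none) => Y₂
      | some (some (some i)) => L i) := by
    intro i
    cases i with
    | o => exact ⟨none, rfl⟩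
    | L i => exact ⟨some (some (some i)), rfl⟩
    | Y₁ => exact ⟨some none, rfl⟩
    | Y₂ => exact ⟨some (some none), rfl⟩
  exact Finite.of_surjective _ this

end Idx

namespace GlueData

variable (d : GlueData)

/-- The ring `S₁ ×_B S₂`, `B = A⁴`. -/
def R : Subalgebra ℂ (d.S₁ × d.S₂) where
  carrier := {s | ∀ i, d.ρ₁ i s.1 = d.ρ₂ i s.2}
  mul_mem' := by
    intro a b ha hb i
    simp only [Set.mem_ofPred_eq] at ha hb
    simp [ha i, hb i]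
  add_mem' := by
    intro a b ha hb i
    simp only [Set.mem_ofPred_eq] at ha hb
    simp [ha i, hb i]
  algebraMap_mem' := by
    intro c i
    simp

/-- The rings of the diagram. -/
def ring : Idx → Type
  | Idx.o => ℂ
  | Idx.L _ => d.A
  | Idx.Y₁ => d.S₁
  | Idx.Y₂ => d.S₂

noncomputable instance (i : Idx) : CommRing (d.ring i) :=
  match i with
  | Idx.o => inferInstanceAs (CommRing ℂ)
  | Idx.L _ => inferInstanceAs (CommRing d.A)
  | Idx.Y₁ => inferInstanceAs (CommRing d.S₁)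
  | Idx.Y₂ => inferInstanceAs (CommRing d.S₂)

noncomputable instance (i : Idx) : Algebra ℂ (d.ring i) :=
  match i with
  | Idx.o => inferInstanceAs (Algebra ℂ ℂ)
  | Idx.L _ => inferInstanceAs (Algebra ℂ d.A)
  | Idx.Y₁ => inferInstanceAs (Algebra ℂ d.S₁)
  | Idx.Y₂ => inferInstanceAs (Algebra ℂ d.S₂)

/-- The map `R → S₁`. -/
def p₁ : d.R →ₐ[ℂ] d.S₁ := (AlgHom.fst ℂ d.S₁ d.S₂).comp d.R.val

/-- The map `R → S₂`. -/
def p₂ : d.R →ₐ[ℂ] d.S₂ := (AlgHom.snd ℂ d.S₁ d.S₂).comp d.R.val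

/-- The augmentations. -/
noncomputable def aug (i : Idx) : d.R →ₐ[ℂ] d.ring i :=
  match i with
  | Idx.o => d.ε₁.comp d.p₁
  | Idx.L i => (d.ρ₁ i).comp d.p₁
  | Idx.Y₁ => d.p₁
  | Idx.Y₂ => d.p₂

/-- The restriction maps. -/
noncomputable def res : ∀ {i j : Idx}, Idx.le i j → (d.ring j →ₐ[ℂ] d.ring i)
  | Idx.o, Idx.o, _ => AlgHom.id ℂ ℂ
  | Idx.o, Idx.L _, _ => d.ev
  | Idx.o, Idx.Y₁, _ => d.ε₁
  | Idx.o, Idx.Y₂, _ => d.ε₂
  | Idx.L _, Idx.L _, _ => AlgHom.id ℂ d.A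
  | Idx.L i, Idx.Y₁, _ => d.ρ₁ i
  | Idx.L i, Idx.Y₂, _ => d.ρ₂ i
  | Idx.Y₁, Idx.Y₁, _ => AlgHom.id ℂ d.S₁
  | Idx.Y₂, Idx.Y₂, _ => AlgHom.id ℂ d.S₂
  | Idx.L _, Idx.o, h => h.elim
  | Idx.Y₁, Idx.o, h => h.elim
  | Idx.Y₁, Idx.L _, h => h.elim
  | Idx.Y₁, Idx.Y₂, h => h.elim
  | Idx.Y₂, Idx.o, h => h.elim
  | Idx.Y₂, Idx.L _, h => h.elim
  | Idx.Y₂, Idx.Y₁, h => h.elim

end GlueData

end Pool.Agent.Helper165.DB
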