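import Pool.Agent.Helper165.DB.DDESC
import Pool.Agent.Helper165.DB.DFIN
import Pool.Agent.Helper165.DB.DFT
import Pool.Agent.Helper165.DB.DDIM
import Pool.Agent.Helper165.DB.DEV
import Pool.Agent.Helper165.DB.DRHO
import Pool.Agent.Helper165.DB.DTAU
import Pool.Agent.Helper165.DB.DOMEGA
import Pool.Agent.Helper165.DB.DSM
import Pool.Agent.Helper165.DB.DDIMS

set_option autoImplicit false

open Polynomial

namespace Pool.Agent.Helper165.DB

namespace GlueData

variable (d : GlueData)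

lemma res_self (i : Idx) : d.res (Idx.le_refl i) = AlgHom.id ℂ (d.ring i) := by
  cases i <;> rfl

lemma res_res {i j k : Idx} (hij : Idx.le i j) (hjk : Idx.le j k) :
    (d.res hij).comp (d.res hjk) = d.res (Idx.le_trans hij hjk) := by
  cases i <;> cases j <;> cases k <;>
    first
    | exact hij.elim
    | exact hjk.elim
    | (cases hij; cases hjk; rfl)
    | (cases hij; rfl)
    | rfl
    | (apply AlgHom.ext; intro s; first | exact d.hε₁ _ s | exact d.hε₂ _ s)

lemma res_aug {i j : Idx} (h : Idx.le i j) : (d.res h).comp (d.aug j) = d.aug i := by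
  cases i with
  | o =>
    cases j with
    | o => rfl
    | L k =>
      apply AlgHom.ext
      intro r
      exact d.hε₁ _ _
    | Y₁ => rfl
    | Y₂ =>
      apply AlgHom.ext
      intro r
      change d.ε₂ r.1.2 = d.ε₁ r.1.1
      rw [← d.hε₂ 0, ← d.hε₁ 0, r.2 0]
  | L i =>
    cases j with
    | o => exact h.elim
    | L k => cases h; rfl
    | Y₁ => rfl
    | Y₂ =>
      apply AlgHom.ext
      intro r
      exact (r.2 i).symm
  | Y₁ =>
    cases j with
    | o => exact h.elim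
    | L k => exact h.elim
    | Y₁ => rfl
    | Y₂ => exact h.elim
  | Y₂ =>
    cases j with
    | o => exact h.elim
    | L k => exact h.elim
    | Y₁ => exact h.elim
    | Y₂ => rfl

/-- The hyperresolution of `Spec R`. -/
noncomputable def hyper [Algebra.FiniteType ℂ d.A] [Algebra.FiniteType ℂ d.S₁]
    [Algebra.FiniteType ℂ d.S₂] (sA : Algebra.Smooth ℂ d.A) (s₁ : Algebra.Smooth ℂ d.S₁)
    (s₂ : Algebra.Smooth ℂ d.S₂) : Hyperresolution d.R where
  ι := Idx
  le := Idx.le
  finite_index := Idx.finite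
  le_refl := Idx.le_refl
  le_trans := Idx.le_trans
  le_antisymm := Idx.le_antisymm
  A := d.ring
  aug := d.aug
  res := d.res
  res_self := d.res_self
  res_res := d.res_res
  res_aug := d.res_aug
  smooth := by
    intro i
    cases i with
    | o => exact smooth_C
    | L k => exact sA
    | Y₁ => exact s₁
    | Y₂ => exact s₂
  finite := d.aug_finite
  descent := fun K _ _ x => d.descent K x

end GlueData

lemma formMap_smul {A B : Type} [CommRing A] [CommRing B] [Algebra ℂ A]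
    [Algebra ℂ B] (f : A →ₐ[ℂ] B) (a : A) (x : Ω[A⁄ℂ]) :
    formMap f (a • x) = f a • formMap f x := by
  let _ : Algebra A B := f.toRingHom.toAlgebra
  have : IsScalarTower ℂ A B := IsScalarTower.of_algebraMap_eq fun c => (f.commutes c).symm
  change KaehlerDifferential.map ℂ ℂ A B (a • x) = _
  rw [map_smul]
  rfl

lemma formMap_id {A : Type} [CommRing A] [Algebra ℂ A] (x : Ω[A⁄ℂ]) :
    formMap (AlgHom.id ℂ A) x = x := by
  have hx : x ∈ Submodule.span A (Set.range (KaehlerDifferential.D ℂ A)) := by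
    rw [KaehlerDifferential.span_range_derivation]
    trivial
  induction hx using Submodule.span_induction with
  | mem y hy =>
    obtain ⟨a, rfl⟩ := hy
    have := formMap_smul_D (AlgHom.id ℂ A) 1 a
    rw [one_smul, map_one, one_smul] at this
    exact this
  | zero => rw [map_zero]
  | add y z _ _ hy hz => rw [map_add, hy, hz]
  | smul a y _ hy => rw [formMap_smul, hy]; rfl

lemma omega_C_subsingleton : Subsingleton (Ω[ℂ⁄ℂ]) :=
  KaehlerDifferential.subsingleton_of_surjective ℂ ℂ Function.surjective_id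

namespace GlueData

variable (d : GlueData)

/-- Vanishing for one-forms from surjectivity. -/
lemma forms_vanish
    (hs : ∀ δ : Fin 4 → Ω[d.A⁄ℂ], ∃ (β₁ : Ω[d.S₁⁄ℂ]) (β₂ : Ω[d.S₂⁄ℂ]),
      ∀ i, formMap (d.ρ₁ i) β₁ - formMap (d.ρ₂ i) β₂ = δ i) :
    FirstCohomologyVanishes Idx.le Idx.le_trans (fun i => Ω[d.ring i⁄ℂ])
      (fun h => formMap (d.res h)) := by
  intro c hc
  let a₁ : Fin 4 → Ω[d.A⁄ℂ] := fun i => c (Idx.L i) Idx.Y₁ trivial
  let a₂ : Fin 4 → Ω[d.A⁄ℂ] := fun i => c (Idx.L i) Idx.Y₂ trivial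
  obtain ⟨β₁, β₂, hβ⟩ := hs (fun i => a₁ i - a₂ i)
  have hdiag : ∀ i (h : Idx.le i i), c i i h = 0 := by
    intro i h
    have h1 : formMap (d.res h) (c i i h) - c i i h + c i i h = 0 := hc i i i h h
    have h2 : d.res h = AlgHom.id ℂ (d.ring i) := d.res_self i
    rw [h2, formMap_id, sub_self, zero_add] at h1
    exact h1
  have hself : ∀ i (h : Idx.le i i) (x : Ω[d.ring i⁄ℂ]), formMap (d.res h) x - x = 0 := by
    intro i h x
    have h2 : d.res h = AlgHom.id ℂ (d.ring i) := d.res_self i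
    rw [h2, formMap_id, sub_self]
  have hsub : Subsingleton (Ω[d.ring Idx.o⁄ℂ]) := omega_C_subsingleton
  refine ⟨fun i => match i with
    | Idx.o => (0 : Ω[ℂ⁄ℂ])
    | Idx.L i => (formMap (d.ρ₁ i) β₁ - a₁ i : Ω[d.A⁄ℂ])
    | Idx.Y₁ => β₁
    | Idx.Y₂ => β₂, ?_⟩
  intro i j h
  cases i with
  | o => exact Subsingleton.elim _ _
  | L i =>
    cases j with
    | o => exact h.elim
    | L k =>
      cases h
      exact (hdiag _ _).trans (hself _ _ _).symm
    | Y₁ =>
      change a₁ i = formMap (d.ρ₁ i) β₁ - (formMap (d.ρ₁ i) β₁ - a₁ i)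
      rw [sub_sub_cancel]
    | Y₂ =>
      change a₂ i = formMap (d.ρ₂ i) β₂ - (formMap (d.ρ₁ i) β₁ - a₁ i)
      have h3 := hβ i
      rw [sub_eq_iff_eq_add] at h3
      rw [h3]
      abel
  | Y₁ =>
    cases j with
    | o => exact h.elim
    | L k => exact h.elim
    | Y₁ => exact (hdiag _ _).trans (hself _ _ _).symm
    | Y₂ => exact h.elim
  | Y₂ =>
    cases j with
    | o => exact h.elim
    | L k => exact h.elim
    | Y₁ => exact h.elim
    | Y₂ => exact (hdiag _ _).trans (hself _ _ _).symm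

/-- The test cocycle. -/
noncomputable def testCocycle (a : d.A) : ∀ i j : Idx, Idx.le i j → d.ring i
  | Idx.L i, Idx.Y₁, _ => if i = 3 then a else 0
  | Idx.L _, Idx.L _, _ => (0 : d.A)
  | Idx.L _, Idx.Y₂, _ => (0 : d.A)
  | Idx.L _, Idx.o, h => h.elim
  | Idx.o, _, _ => (0 : ℂ)
  | Idx.Y₁, _, _ => (0 : d.S₁)
  | Idx.Y₂, _, _ => (0 : d.S₂)

lemma testCocycle_isCocycle (a : d.A) (ha : d.ev a = 0) (i j k : Idx) (hij : Idx.le i j)
    (hjk : Idx.le j k) : d.res hij (d.testCocycle a j k hjk) -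
      d.testCocycle a i k (Idx.le_trans hij hjk) + d.testCocycle a i j hij = 0 := by
  cases i with
  | o =>
    cases j with
    | o =>
      change (0 : ℂ) - 0 + 0 = 0
      simp
    | L j =>
      cases k with
      | o => exact hjk.elim
      | L k =>
        change d.ev 0 - 0 + 0 = 0
        simp
      | Y₁ =>
        change d.ev (if j = 3 then a else 0) - 0 + 0 = 0
        split_ifs
        · rw [ha]; simp
        · simp
      | Y₂ =>
        change d.ev 0 - 0 + 0 = 0
        simp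
    | Y₁ =>
      change d.ε₁ 0 - 0 + 0 = 0
      simp
    | Y₂ =>
      change d.ε₂ 0 - 0 + 0 = 0
      simp
  | L i =>
    cases j with
    | o => exact hij.elim
    | L j =>
      cases hij
      cases k with
      | o => exact hjk.elim
      | L k =>
        change (0 : d.A) - 0 + 0 = 0
        simp
      | Y₁ =>
        change (if i = 3 then a else 0) - (if i = 3 then a else 0) + 0 = 0
        simp
      | Y₂ =>
        change (0 : d.A) - 0 + 0 = 0
        simp
    | Y₁ =>
      cases k with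
      | o => exact hjk.elim
      | L k => exact hjk.elim
      | Y₁ =>
        change d.ρ₁ i 0 - (if i = 3 then a else 0) + (if i = 3 then a else 0) = 0
        simp
      | Y₂ => exact hjk.elim
    | Y₂ =>
      cases k with
      | o => exact hjk.elim
      | L k => exact hjk.elim
      | Y₁ => exact hjk.elim
      | Y₂ =>
        change d.ρ₂ i 0 - 0 + 0 = 0
        simp
  | Y₁ =>
    cases j with
    | o => exact hij.elim
    | L j => exact hij.elim
    | Y₁ =>
      change (0 : d.S₁) - 0 + 0 = 0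
      simp
    | Y₂ => exact hij.elim
  | Y₂ =>
    cases j with
    | o => exact hij.elim
    | L j => exact hij.elim
    | Y₁ => exact hij.elim
    | Y₂ =>
      change (0 : d.S₂) - 0 + 0 = 0
      simp

/-- Non-vanishing for functions from a functional. -/
lemma functions_not_vanish (a : d.A) (ha : d.ev a = 0)
    (hn : ¬ ∃ (G₁ : d.S₁) (G₂ : d.S₂), ∀ i, d.ρ₁ i G₁ - d.ρ₂ i G₂ = if i = 3 then a else 0) :
    ¬ FirstCohomologyVanishes Idx.le Idx.le_trans d.ring (fun h => d.res h) := by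
  intro H
  obtain ⟨m, hm⟩ := H (d.testCocycle a) (d.testCocycle_isCocycle a ha)
  apply hn
  refine ⟨m Idx.Y₁, m Idx.Y₂, fun i => ?_⟩
  let g : d.A := m (Idx.L i)
  let G₁ : d.S₁ := m Idx.Y₁
  let G₂ : d.S₂ := m Idx.Y₂
  have h1 : (if i = 3 then a else 0) = d.ρ₁ i G₁ - g := hm (Idx.L i) Idx.Y₁ trivial
  have h2 : (0 : d.A) = d.ρ₂ i G₂ - g := hm (Idx.L i) Idx.Y₂ trivial
  change d.ρ₁ i G₁ - d.ρ₂ i G₂ = _
  rw [h1]
  have h3 : d.ρ₂ i G₂ = g := (sub_eq_zero.1 h2.symm)
  rw [h3]

end GlueData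

/-- A primitive cube root of unity. -/
lemma exists_w : ∃ w : ℂ, w ^ 3 = 1 ∧ w ≠ 1 := by
  have h := Complex.isPrimitiveRoot_exp 3 (by norm_num)
  refine ⟨_, h.pow_eq_one, h.ne_one (by norm_num)⟩

/-- The index of the curve of the first surface glued to the curve `i`. -/
def sw : Fin 4 → Fin 4 := ![0, 2, 1, 3]

theorem main : ∃ (R : Type) (_ : CommRing R) (_ : Algebra ℂ R) (D : Hyperresolution R),
    IsAffineSurface R ∧ DuBoisH1FormsVanishes D ∧ ¬ DuBoisH1FunctionsVanishes D := by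
  obtain ⟨w, hw, hw1⟩ := exists_w
  obtain ⟨ev, hev0, hev⟩ := exists_ev
  obtain ⟨ρ₁, ε₁, h₁, hε₁, hc₁, hn₁⟩ := exists_rho ev hev0 1 (one_pow 3)
  obtain ⟨ρ₂, ε₂, h₂, hε₂, hc₂, hn₂⟩ := exists_rho ev hev0 w hw
  obtain ⟨τ, hτ, hτ'⟩ := exists_tau
  have hsw : ∀ k, sw (sw k) = k := by decide
  let d : GlueData :=
    { A := LA
      S₁ := LS 1
      S₂ := LS w
      T := tt
      ev := ev
      ρ₁ := fun i => ρ₁ (sw i)
      ρ₂ := ρ₂
      ε₁ := ε₁
      ε₂ := ε₂
      evT := hev0
      hev := hev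
      hε₁ := fun i s => hε₁ (sw i) s
      hε₂ := hε₂
      cond₁ := fun i b => by
        obtain ⟨G, hG, hG'⟩ := hc₁ (sw i) b
        refine ⟨G, hG, fun k hk => hG' _ (fun h => hk ?_)⟩
        rw [← hsw k, h, hsw]
      cond₂ := hc₂ }
  have fA : Algebra.FiniteType ℂ d.A := by
    have := smooth_LA
    exact inferInstanceAs (Algebra.FiniteType ℂ LA)
  have f₁ : Algebra.FiniteType ℂ d.S₁ := by
    have := smooth_LS 1
    exact inferInstanceAs (Algebra.FiniteType ℂ (LS 1))
  have f₂ : Algebra.FiniteType ℂ d.S₂ := by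
    have := smooth_LS w
    exact inferInstanceAs (Algebra.FiniteType ℂ (LS w))
  have dA : IsDomain d.A := isDomain_LA
  have d₁ : IsDomain d.S₁ := isDomain_LS 1
  have d₂ : IsDomain d.S₂ := isDomain_LS w
  refine ⟨d.R, inferInstance, inferInstance,
    d.hyper smooth_LA (smooth_LS 1) (smooth_LS w), ⟨?_, ?_, ?_⟩, ?_, ?_⟩
  · have : IsReduced (d.S₁ × d.S₂) := inferInstance
    exact isReduced_of_injective d.R.val Subtype.val_injective
  · exact d.finiteType_R d.aug_finite
  · obtain ⟨G, hG, hG'⟩ := hn₁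
    exact d.dim_R (dim_LS 1) (dim_LS w) ⟨G, hG, fun i => hG' _⟩ tt_ne_zero d.aug_finite
  · -- forms
    refine d.forms_vanish fun δ => ?_
    obtain ⟨β₁, β₂, e0, e1, e2, e3⟩ := forms_surjective w hw hw1 ρ₁ ρ₂ h₁ h₂ hc₁ δ
    refine ⟨β₁, β₂, fun i => ?_⟩
    fin_cases i
    · exact e0
    · exact e1
    · exact e2
    · exact e3
  · -- functions
    refine d.functions_not_vanish (tt ^ 3) ?_ ?_
    · change ev (tt ^ 3) = 0
      rw [map_pow, hev0, zero_pow (by norm_num)]
    · rintro ⟨G₁, G₂, hG⟩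
      have k0 : ρ₁ 0 G₁ - ρ₂ 0 G₂ = 0 := hG 0
      have k1 : ρ₁ 2 G₁ - ρ₂ 1 G₂ = 0 := hG 1
      have k2 : ρ₁ 1 G₁ - ρ₂ 2 G₂ = 0 := hG 2
      have k3 : ρ₁ 3 G₁ - ρ₂ 3 G₂ = tt ^ 3 := hG 3
      have t1 := hτ' 1 (one_pow 3) ρ₁ h₁ G₁
      have t2 := hτ' w hw ρ₂ h₂ G₂
      rw [sub_eq_iff_eq_add] at k0 k1 k2 k3
      rw [k0, k1, k2, k3, map_add, map_add, map_add, map_add, hτ, map_zero] at t1
      have : (1 : ℂ) = 0 := by linear_combination t1 - t2
      exact one_ne_zero this

end Pool.Agent.Helper165.DB
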